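import Pool.Agent.Y958.E.Stm

/-!
Library Y958.E (helper958): further statements.
-/

set_option autoImplicit false

open Finset

namespace Pool.Agent.Y958.E

/-- nearly periodic up to a unimodular constant depending on the scale -/
def AP (h : ℕ → ℂ) : Prop := ∀ ε : ℝ, 0 < ε → ∃ (Q : ℕ) (w : ℕ → ℂ), 1 ≤ Q ∧ (∀ n, ‖w n‖ ≤ 1) ∧
  (∀ n, w (n + Q) = w n) ∧ ∃ N₀ : ℕ, ∀ N : ℕ, N₀ ≤ N → ∃ u : ℂ, ‖u‖ = 1 ∧
    ∑ n ∈ range N, ‖h n - u * w n‖ ≤ ε * N

/-- (APX2) multiplicative functions at finite pretentious distance from a Dirichlet character are nearly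
periodic up to rotations depending on the scale -/
def S_APX2 : Prop := ∀ (q : ℕ), 1 ≤ q → ∀ (χ : DirichletCharacter ℂ q) (h : ℕ → ℂ), BM h →
  Summable (fun p : Nat.Primes => (1 - (h p * (starRingEnd ℂ) (χ ((p : ℕ) : ZMod q))).re) / ((p : ℕ) : ℝ)) →
  AP h

end Pool.Agent.Y958.E
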