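import Pool.Agent.Y681.E.Apx2

/-!
Library Y958.E (helper958): uniform version of the approximation by periodic functions.
-/

set_option autoImplicit false

namespace Pool.Agent.Y958.E

open Finset Pool.Agent.Y434.E.Apx Pool.Agent.Y681.E.Apx2

/-- uniform approximation: multiplicative functions which are near a Dirichlet character of modulus at most
`B` at the primes in `(B, X]` are nearly periodic, up to a rotation, with bounded period -/
theorem apxU (ε : ℝ) (hε : 0 < ε) : ∃ δ : ℝ, 0 < δ ∧ ∀ B : ℕ, ∃ P N₀ : ℕ, ∀ (q : ℕ), 1 ≤ q → q ≤ B →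
    ∀ (χ : DirichletCharacter ℂ q) (h : ℕ → ℂ), BM h → ∀ X : ℕ,
    ∑ p ∈ (Ioc B X).filter Nat.Prime, (1 - (h p * (starRingEnd ℂ) (χ ((p : ℕ) : ZMod q))).re) / (p : ℝ) ≤ δ →
    ∃ (Q : ℕ) (w : ℕ → ℂ), 1 ≤ Q ∧ Q ≤ P ∧ (∀ n, ‖w n‖ ≤ 1) ∧ (∀ n, w (n + Q) = w n) ∧
      ∀ N : ℕ, N₀ ≤ N → N ≤ X → ∃ u : ℂ, ‖u‖ = 1 ∧ ∑ n ∈ range N, ‖h n - u * w n‖ ≤ ε * N := by
  obtain ⟨η, hη⟩ : ∃ η : ℝ, η = ε / 8 := ⟨_, rfl⟩
  have hη0 : 0 < η := by rw [hη]; positivity
  obtain ⟨δ, hδ0, hδ1, hδ2⟩ : ∃ δ : ℝ, 0 < δ ∧ 4 * δ ≤ η ^ 2 ∧ 8 * δ ≤ η := by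
    refine ⟨min (η ^ 2 / 4) (η / 8), by positivity, ?_, ?_⟩
    · have := min_le_left (η ^ 2 / 4) (η / 8)
      linarith
    · have := min_le_right (η ^ 2 / 4) (η / 8)
      linarith
  refine ⟨δ, hδ0, fun B₀ => ?_⟩
  obtain ⟨s2, hs2⟩ := summable_iff_vanishing_norm.1
    (Real.summable_one_div_nat_pow.2 (by norm_num : 1 < 2)) (η / 4) (by positivity)
  obtain ⟨Y, hY⟩ : ∃ Y : ℕ, B₀ ≤ Y ∧ ∀ p ∈ s2, p ≤ Y := by
    refine ⟨max B₀ (s2.sup id), le_max_left _ _, fun p hp => ?_⟩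
    exact (Finset.le_sup (f := id) hp).trans (le_max_right _ _)
  obtain ⟨J, hJ⟩ : ∃ J : ℕ, (Y : ℝ) * (1 / 2) ^ J ≤ η := by
    obtain ⟨J, hJ⟩ := exists_pow_lt_of_lt_one (show (0 : ℝ) < η / (Y + 1) by positivity)
      (show (1 / 2 : ℝ) < 1 by norm_num)
    refine ⟨J, ?_⟩
    rw [lt_div_iff₀ (by positivity)] at hJ
    have : (0 : ℝ) ≤ (1 / 2) ^ J := by positivity
    nlinarith
  have b2 : ∀ N : ℕ, ∑ p ∈ (Ioc Y N).filter Nat.Prime, (1 / (p : ℝ) ^ 2) ≤ η / 4 := by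
    intro N
    have := hs2 ((Ioc Y N).filter Nat.Prime) (by
      rw [Finset.disjoint_left]
      intro p hp hp2
      have a1 := hY.2 p hp2
      rw [Finset.mem_filter, Finset.mem_Ioc] at hp
      omega)
    exact (le_abs_self _).trans this.le
  have b3 : ∑ p ∈ (Icc 1 Y).filter Nat.Prime, (1 / (p : ℝ) ^ J) ≤ η := by
    refine le_trans ?_ hJ
    calc ∑ p ∈ (Icc 1 Y).filter Nat.Prime, (1 / (p : ℝ) ^ J)
        ≤ ∑ p ∈ (Icc 1 Y).filter Nat.Prime, (1 / 2 : ℝ) ^ J := by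
          refine Finset.sum_le_sum fun p hp => ?_
          have hp2 : (2 : ℝ) ≤ p := by exact_mod_cast (Finset.mem_filter.1 hp).2.two_le
          rw [one_div_pow]
          gcongr
      _ ≤ Y * (1 / 2) ^ J := by
          rw [Finset.sum_const, nsmul_eq_mul]
          refine mul_le_mul_of_nonneg_right ?_ (by positivity)
          have : ((Icc 1 Y).filter Nat.Prime).card ≤ Y := by
            refine (Finset.card_filter_le _ _).trans ?_
            simp
          exact_mod_cast this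
  -- the constant `K`
  obtain ⟨K, hK1, hK⟩ : ∃ K : ℕ, 1 ≤ K ∧ 4 / η ≤ K :=
    ⟨⌈4 / η⌉₊ + 1, by omega, by push_cast; linarith [Nat.le_ceil (4 / η)]⟩
  have hKη : 4 ≤ K * η := by rwa [div_le_iff₀ hη0] at hK
  refine ⟨B₀ * MM Y J + 1, max ⌈2 / η⌉₊ ((K * (Y + K ^ 2)) ^ 2), fun q hq hqB χ h hh X hsum => ?_⟩
  by_cases h1 : h 1 = 1
  swap
  · -- `h` vanishes on the positive integers
    have h10 : h 1 = 0 := by
      have := hh.2 1 1 le_rfl le_rfl (Nat.coprime_one_left 1)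
      rw [mul_one] at this
      have h2 : h 1 * (h 1 - 1) = 0 := by linear_combination -this
      rcases mul_eq_zero.1 h2 with h3 | h3
      · exact h3
      · exact absurd (sub_eq_zero.1 h3) h1
    have hz : ∀ n, 1 ≤ n → h n = 0 := by
      intro n hn
      have := hh.2 n 1 hn le_rfl (Nat.coprime_one_right n)
      rw [mul_one, h10, mul_zero] at this
      exact this
    refine ⟨1, fun _ => 0, le_rfl, by omega, fun _ => by simp, fun _ => rfl,
      fun N hN _ => ⟨1, by simp, ?_⟩⟩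
    have hN1 : ⌈2 / η⌉₊ ≤ N := (le_max_left _ _).trans hN
    have hN3 : 2 ≤ N * η := by
      have : 2 / η ≤ N := (Nat.le_ceil _).trans (by exact_mod_cast hN1)
      rwa [div_le_iff₀ hη0] at this
    have k1 : ∑ n ∈ range N, ‖h n - 1 * 0‖ ≤ ‖h 0‖ := by
      have : range N ⊆ insert 0 (Ioc 0 N) := by
        intro n hn
        rw [Finset.mem_range] at hn
        rw [Finset.mem_insert, Finset.mem_Ioc]
        omega
      refine (Finset.sum_le_sum_of_subset_of_nonneg this fun _ _ _ => norm_nonneg _).trans ?_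
      rw [Finset.sum_insert (by simp), mul_zero, sub_zero]
      have : ∑ n ∈ Ioc 0 N, ‖h n - 0‖ = 0 := by
        refine Finset.sum_eq_zero fun n hn => ?_
        rw [hz n (Finset.mem_Ioc.1 hn).1]
        simp
      rw [this, add_zero]
    have k2 := hh.1 0
    have e : ε * N = 8 * (N * η) := by rw [hη]; ring
    linarith
  · -- the main case
    have b1 : ∀ a N : ℕ, Y ≤ a → N ≤ X → ∑ p ∈ (Ioc a N).filter Nat.Prime, rr h χ p / p ≤ δ := by
      intro a N ha hN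
      refine le_trans (Finset.sum_le_sum_of_subset_of_nonneg ?_ fun p _ _ =>
        div_nonneg (rr_nonneg hh p) (Nat.cast_nonneg _)) hsum
      apply Finset.filter_subset_filter
      exact Finset.Ioc_subset_Ioc (hY.1.trans ha) hN
    have b1' : ∀ a N : ℕ, Y ≤ a → N ≤ X → ∑ p ∈ (Ioc a N).filter Nat.Prime, ‖aa h χ p‖ ^ 2 / p ≤ 2 * δ := by
      intro a N ha hN
      calc ∑ p ∈ (Ioc a N).filter Nat.Prime, ‖aa h χ p‖ ^ 2 / (p : ℝ)
          ≤ ∑ p ∈ (Ioc a N).filter Nat.Prime, 2 * (rr h χ p / p) := by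
            refine Finset.sum_le_sum fun p _ => ?_
            rw [← mul_div_assoc]
            exact div_le_div_of_nonneg_right (aa_sq hh p) (Nat.cast_nonneg _)
        _ = 2 * ∑ p ∈ (Ioc a N).filter Nat.Prime, rr h χ p / p := by rw [Finset.mul_sum]
        _ ≤ 2 * δ := by linarith [b1 a N ha hN]
    refine ⟨q * MM Y J, ww h χ Y J, Nat.mul_pos hq (MM_pos _ _), ?_, ww_le h hh χ Y J, ww_per h χ Y J,
      fun N hN hNX => ?_⟩
    · have := Nat.mul_le_mul_right (MM Y J) hqB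
      omega
    have hN1 : ⌈2 / η⌉₊ ≤ N := (le_max_left _ _).trans hN
    have hN2 : (K * (Y + K ^ 2)) ^ 2 ≤ N := (le_max_right _ _).trans hN
    have hN3 : 2 ≤ N * η := by
      have : 2 / η ≤ N := (Nat.le_ceil _).trans (by exact_mod_cast hN1)
      rwa [div_le_iff₀ hη0] at this
    obtain ⟨z, hz⟩ : ∃ z, z = Nat.sqrt N / K := ⟨_, rfl⟩
    have hs : K * (Y + K ^ 2) ≤ Nat.sqrt N := by
      rw [Nat.le_sqrt']
      exact hN2
    have hz1 : Y + K ^ 2 ≤ z := by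
      rw [hz, Nat.le_div_iff_mul_le (by omega), mul_comm]
      exact hs
    have hzK : z * K ≤ Nat.sqrt N := by rw [hz]; exact Nat.div_mul_le_self _ _
    have hzK2 : (z * K) ^ 2 ≤ N := (Nat.pow_le_pow_left hzK 2).trans (Nat.sqrt_le' N)
    have hYz : Y ≤ z := by omega
    have hzN : z ≤ N := by
      calc z ≤ z * K := Nat.le_mul_of_pos_right _ (by omega)
        _ ≤ Nat.sqrt N := hzK
        _ ≤ N := Nat.sqrt_le_self N
    have hz3 : N < (z + 1) ^ 3 := by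
      have a1 : Nat.sqrt N + 1 ≤ K * (z + 1) := by
        have := Nat.lt_mul_div_succ (Nat.sqrt N) (show 0 < K by omega)
        rw [← hz] at this
        exact this
      have a2 : N < (Nat.sqrt N + 1) ^ 2 := Nat.lt_succ_sqrt' N
      calc N < (Nat.sqrt N + 1) ^ 2 := a2
        _ ≤ (K * (z + 1)) ^ 2 := Nat.pow_le_pow_left a1 2
        _ = K ^ 2 * (z + 1) ^ 2 := by ring
        _ ≤ (z + 1) * (z + 1) ^ 2 := Nat.mul_le_mul_right _ (by omega)
        _ = (z + 1) ^ 3 := by ring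
    obtain ⟨B, hB⟩ : ∃ B : ℂ, B = ∑ p ∈ (Ioc Y z).filter Nat.Prime, aa h χ p / p := ⟨_, rfl⟩
    refine ⟨Complex.exp (B.im * Complex.I), Complex.norm_exp_ofReal_mul_I _, ?_⟩
    have hc₁ : N * ∑ p ∈ (Ioc Y z).filter Nat.Prime, ‖aa h χ p‖ ^ 2 / p + 4 * (z : ℝ) ^ 2 ≤
        N * η ^ 2 := by
      have a1 := b1' Y z le_rfl (hzN.trans hNX)
      have a2 : ((z : ℝ) * K) ^ 2 ≤ N := by exact_mod_cast hzK2
      have a3 : (16 : ℝ) ≤ (K * η) ^ 2 := by nlinarith
      have a4 : 16 * (z : ℝ) ^ 2 ≤ N * η ^ 2 := by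
        calc 16 * (z : ℝ) ^ 2 ≤ (K * η) ^ 2 * (z : ℝ) ^ 2 :=
              mul_le_mul_of_nonneg_right a3 (by positivity)
          _ = ((z : ℝ) * K) ^ 2 * η ^ 2 := by ring
          _ ≤ N * η ^ 2 := mul_le_mul_of_nonneg_right a2 (by positivity)
      have a5 := mul_le_mul_of_nonneg_left a1 (Nat.cast_nonneg (α := ℝ) N)
      have a6 : (N : ℝ) * (4 * δ) ≤ N * η ^ 2 := mul_le_mul_of_nonneg_left hδ1 (Nat.cast_nonneg _)
      have a7 : 0 ≤ (N : ℝ) * η ^ 2 := by positivity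
      linarith
    have hc₂ : 2 * ∑ p ∈ (Ioc z N).filter Nat.Prime, ‖aa h χ p‖ ^ 2 / p ≤ η ^ 2 := by
      have a1 := b1' z N hYz hNX
      linarith
    have k1 := avg2 (χ := χ) hh h1 Y J N z hYz hzN hz3 B hB η η hη0.le hη0.le hc₁ hc₂
    have k2 : |B.re| ≤ δ := by
      have e : B.re = -∑ p ∈ (Ioc Y z).filter Nat.Prime, rr h χ p / p := by
        rw [hB, Complex.re_sum, ← Finset.sum_neg_distrib]
        refine Finset.sum_congr rfl fun p _ => ?_
        rw [Complex.div_natCast_re, aa_re]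
        ring
      rw [e, abs_neg, abs_of_nonneg (Finset.sum_nonneg fun p _ =>
        div_nonneg (rr_nonneg hh p) (Nat.cast_nonneg _))]
      exact b1 Y z le_rfl (hzN.trans hNX)
    have k4 : ∑ p ∈ (Ioc Y N).filter Nat.Prime, (2 * ‖aa h χ p‖ ^ 2 / p + 2 * (1 / (p : ℝ) ^ 2)) ≤
        η := by
      have a1 := b1' Y N le_rfl hNX
      have a2 := b2 N
      rw [Finset.sum_add_distrib, ← Finset.mul_sum]
      have e : ∑ p ∈ (Ioc Y N).filter Nat.Prime, 2 * ‖aa h χ p‖ ^ 2 / (p : ℝ) =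
          2 * ∑ p ∈ (Ioc Y N).filter Nat.Prime, ‖aa h χ p‖ ^ 2 / (p : ℝ) := by
        rw [Finset.mul_sum]
        refine Finset.sum_congr rfl fun p _ => ?_
        ring
      rw [e]
      linarith
    have k5 : (N : ℝ) * (∑ p ∈ (Ioc Y N).filter Nat.Prime,
        (2 * ‖aa h χ p‖ ^ 2 / p + 2 * (1 / (p : ℝ) ^ 2)) +
        ∑ p ∈ (Icc 1 Y).filter Nat.Prime, (1 / (p : ℝ) ^ J) + η + η + |B.re|) ≤
        N * (5 * η) := mul_le_mul_of_nonneg_left (by linarith) (by positivity)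
    have e : ε * N = 8 * (N * η) := by rw [hη]; ring
    have k6 : 0 ≤ N * η := by positivity
    linarith

end Pool.Agent.Y958.E
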