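import Pool.Agent.Y958.E.UnifT

/-!
Library Y958.E (helper958): final uniform statement.
-/

set_option autoImplicit false

namespace Pool.Agent.Y958.E

open Finset Filter Topology
open Pool.Agent.H376R2.MR (lam)
open Pool.Agent.Y958.U

/-- **final uniform statement** -/
theorem finU : ∃ c : ℕ → ℝ, (∀ k, 0 < c k) ∧ ∀ (k : ℕ) (h : Fin (k + 1) → ℕ), Function.Injective h →
    ∀ (A : ℕ) (η : ℝ), 0 < η → ∃ ω₀ : ℕ, ∀ y x : ℕ, 1 ≤ y → ω₀ * y ≤ x →
      ∀ f : Fin (k + 1) → ℕ → ℂ, (∀ i, BM (f i)) →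
      (∃ (q : ℕ) (χ : DirichletCharacter ℂ q) (t : ℝ), 1 ≤ q ∧ q ≤ A ∧ |t| ≤ A * y ∧
        ∑ p ∈ (Ioc A x).filter Nat.Prime, (1 - (f 0 p * (starRingEnd ℂ) ((-1) ^ ArithmeticFunction.cardFactors p *
          χ ((p : ℕ) : ZMod q) * nit t p)).re) / (p : ℝ) ≤ c k) →
      ∑ N ∈ Ioc y x, (open Classical in
        if (1 - c k) * (N : ℝ) < ‖∑ n ∈ Icc 1 N, ∏ i, f i (n + h i)‖ then (1 : ℝ) / N else 0) ≤
        η * Real.log ((x : ℝ) / y) ∧
      ‖∑ n ∈ Ioc y x, (∏ i, f i (n + h i)) / n‖ ≤ (1 - c k) * Real.log ((x : ℝ) / y) := by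
  classical
  choose c δ hc0 hc1 hδ0 hU using unifT
  refine ⟨fun k => min (c k / 2) (δ k), fun k => lt_min (by have := hc0 k; positivity) (hδ0 k),
    fun k h hinj A η hη => ?_⟩
  obtain ⟨ω₁, hω₁, h1⟩ := hU k h hinj A (min η (c k / 4)) (lt_min hη (by have := hc0 k; positivity))
  set ω₂ : ℕ := ⌈Real.exp (8 / c k)⌉₊ + 1 with hω₂
  have hω₂' : 8 / c k ≤ Real.log (ω₂ : ℝ) := by
    rw [Real.le_log_iff_exp_le (by rw [hω₂]; positivity)]
    refine (Nat.le_ceil _).trans ?_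
    rw [hω₂]
    push_cast
    linarith
  refine ⟨ω₁ + ω₂, fun y x hy hx f hf hex => ?_⟩
  obtain ⟨q, χ, t, hq, hqA, ht, hsum⟩ := hex
  have hx1 : ω₁ * y ≤ x := le_trans (Nat.mul_le_mul_right _ (by omega)) hx
  have hx2 : ω₂ * y ≤ x := le_trans (Nat.mul_le_mul_right _ (by omega)) hx
  have hyx : y ≤ x := by
    refine le_trans ?_ hx1
    exact Nat.le_mul_of_pos_left _ hω₁
  have hlog2 : 8 / c k ≤ Real.log ((x : ℝ) / y) := hω₂'.trans (log_nonneg' hy (by omega) hx2)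
  have hlog0 : 0 ≤ Real.log ((x : ℝ) / y) := le_trans (by have := hc0 k; positivity) hlog2
  have h2 := h1 y x hy hx1 (f 0) (hf 0) (fun i => f i.succ) (fun i => hf i.succ) q χ t hq hqA ht
    (hsum.trans (min_le_right _ _))
  have hprod : ∀ n, f 0 (n + h 0) * ∏ i : Fin k, f i.succ (n + h i.succ) = ∏ i, f i (n + h i) := by
    intro n
    rw [Fin.prod_univ_succ]
  simp only [hprod] at h2
  have hle : min (c k / 2) (δ k) ≤ c k / 2 := min_le_left _ _
  have hc0k := hc0 k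
  have hc1k := hc1 k
  constructor
  · refine le_trans (sum_le_sum fun N hN => ?_)
      (h2.trans (mul_le_mul_of_nonneg_right (min_le_left _ _) hlog0))
    have hN0 : (0 : ℝ) < N := by exact_mod_cast (by rw [mem_Ioc] at hN; omega : 0 < N)
    by_cases hb : (1 - min (c k / 2) (δ k)) * (N : ℝ) < ‖∑ n ∈ Icc 1 N, ∏ i, f i (n + h i)‖
    · rw [if_pos hb, if_pos]
      refine lt_of_le_of_lt (mul_le_mul_of_nonneg_right ?_ hN0.le) hb
      linarith
    · rw [if_neg hb]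
      split_ifs <;> positivity
  · have h3 := log_win (fun n => ∏ i, f i (n + h i)) (fun n => by
      show ‖∏ i, f i (n + h i)‖ ≤ 1
      rw [norm_prod]
      exact prod_le_one (fun _ _ => norm_nonneg _) fun i _ => (hf i).1 _) (c k) (c k / 4) hc1k.le y x hy hyx
      (h2.trans (mul_le_mul_of_nonneg_right (min_le_right _ _) hlog0))
    refine h3.trans ?_
    rw [div_le_iff₀ hc0k] at hlog2
    have h4 : (1 - c k / 2) * Real.log ((x : ℝ) / y) ≤
        (1 - min (c k / 2) (δ k)) * Real.log ((x : ℝ) / y) :=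
      mul_le_mul_of_nonneg_right (by linarith) hlog0
    have h5 : (1 - c k + c k / 4) * Real.log ((x : ℝ) / y) + c k / 4 * Real.log ((x : ℝ) / y) =
        (1 - c k / 2) * Real.log ((x : ℝ) / y) := by ring
    linarith

end Pool.Agent.Y958.E
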