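import Pool.Agent.Y958.E.Forms

/-!
Library Y958.E (helper958): logarithmic averages, final statements for fixed functions.
-/

set_option autoImplicit false

namespace Pool.Agent.Y958.E

open Finset Filter Topology
open Pool.Agent.Y958.U

/-- Abel summation -/
lemma abel_logC (F : ℕ → ℂ) (X : ℕ) : ∑ n ∈ Icc 1 X, F n / n =
    ∑ N ∈ Icc 1 X, (∑ n ∈ Icc 1 N, F n) * (1 / ((N : ℂ) * (N + 1))) + (∑ n ∈ Icc 1 X, F n) / (X + 1) := by
  induction X with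
  | zero => simp
  | succ X ih =>
    rw [sum_Icc_succ_top (by omega), sum_Icc_succ_top (by omega), ih, sum_Icc_succ_top (by omega)]
    push_cast
    have h1 : (X : ℂ) + 1 ≠ 0 := by exact_mod_cast (by omega : X + 1 ≠ 0)
    have h2 : (X : ℂ) + 1 + 1 ≠ 0 := by exact_mod_cast (by omega : X + 1 + 1 ≠ 0)
    field_simp
    ring

/-- from almost all scales to logarithmic averages -/
lemma logC (ψ : ℕ → ℂ) (P : ℕ → ℝ) (hψ : ∀ n, ‖ψ n‖ ≤ 1) (hP0 : ∀ n, 0 ≤ P n)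
    (c ε : ℝ) (hc1 : c < 1) (hε : 0 < ε)
    (hE : LZ {N : ℕ | (1 - c) * ∑ n ∈ Icc 1 N, P n + ε * N < ‖∑ n ∈ Icc 1 N, ψ n‖}) :
    ∃ X₀ : ℕ, ∀ X : ℕ, X₀ ≤ X → ‖∑ n ∈ Icc 1 X, ψ n / n‖ ≤ (1 - c) * ∑ n ∈ Icc 1 X, P n / n +
      4 * ε * Real.log X := by
  classical
  set E := {N : ℕ | (1 - c) * ∑ n ∈ Icc 1 N, P n + ε * N < ‖∑ n ∈ Icc 1 N, ψ n‖} with hEd
  obtain ⟨X₁, hX₁⟩ := (LZ_iff _).1 hE ε hε
  have hlog : Tendsto (fun X : ℕ => Real.log X) atTop atTop :=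
    Real.tendsto_log_atTop.comp tendsto_natCast_atTop_atTop
  obtain ⟨X₂, hX₂⟩ := eventually_atTop.1 (hlog.eventually_ge_atTop (1 / ε + 1))
  refine ⟨X₁ + X₂ + 2, fun X hX => ?_⟩
  have h1 := hX₁ X (by omega)
  have h2 := hX₂ X (by omega)
  have hS : ∀ N : ℕ, ‖∑ n ∈ Icc 1 N, ψ n‖ ≤ N := by
    intro N
    refine (norm_sum_le _ _).trans ((sum_le_sum fun k _ => hψ _).trans (le_of_eq ?_))
    simp
  rw [abel_logC, abel_log P]
  have h3 : ‖(∑ n ∈ Icc 1 X, ψ n) / ((X : ℂ) + 1)‖ ≤ 1 := by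
    have e : (X : ℂ) + 1 = ((X + 1 : ℕ) : ℂ) := by push_cast; rfl
    rw [e, norm_div, Complex.norm_natCast, div_le_one (by positivity)]
    have := hS X
    push_cast
    linarith
  have h4 : ‖∑ N ∈ Icc 1 X, (∑ n ∈ Icc 1 N, ψ n) * (1 / ((N : ℂ) * (N + 1)))‖ ≤
      (1 - c) * ∑ N ∈ Icc 1 X, (∑ n ∈ Icc 1 N, P n) * (1 / ((N : ℝ) * (N + 1))) +
        ε * (1 + Real.log X) + ls E X := by
    refine (norm_sum_le _ _).trans ?_
    have h5 : ∀ N ∈ Icc 1 X, ‖(∑ n ∈ Icc 1 N, ψ n) * (1 / ((N : ℂ) * (N + 1)))‖ ≤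
        (1 - c) * ((∑ n ∈ Icc 1 N, P n) * (1 / ((N : ℝ) * (N + 1)))) + ε * (1 / (N : ℝ)) + li E N := by
      intro N hN
      rw [mem_Icc] at hN
      have hN0 : (0 : ℝ) < N := by exact_mod_cast (by omega : 0 < N)
      have e1 : (0 : ℝ) < 1 / ((N : ℝ) * (N + 1)) := by positivity
      have e0 : ‖(1 : ℂ) / ((N : ℂ) * (N + 1))‖ = 1 / ((N : ℝ) * (N + 1)) := by
        have e : (1 : ℂ) / ((N : ℂ) * (N + 1)) = ((1 / ((N : ℝ) * (N + 1)) : ℝ) : ℂ) := by push_cast; rfl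
        rw [e, Complex.norm_real, Real.norm_eq_abs, abs_of_pos e1]
      rw [norm_mul, e0]
      have e2 : (N : ℝ) * (1 / ((N : ℝ) * (N + 1))) ≤ 1 / N := by
        rw [mul_one_div, div_le_div_iff₀ (by positivity) hN0]
        nlinarith
      have hP1 : 0 ≤ ∑ n ∈ Icc 1 N, P n := sum_nonneg fun n _ => hP0 n
      by_cases hNE : N ∈ E
      · rw [li_mem hNE]
        have : ‖∑ n ∈ Icc 1 N, ψ n‖ * (1 / ((N : ℝ) * (N + 1))) ≤ N * (1 / ((N : ℝ) * (N + 1))) :=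
          mul_le_mul_of_nonneg_right (hS N) e1.le
        have h6 : 0 ≤ (1 - c) * ((∑ n ∈ Icc 1 N, P n) * (1 / ((N : ℝ) * (N + 1)))) :=
          mul_nonneg (by linarith) (mul_nonneg hP1 e1.le)
        have h7 : 0 ≤ ε * (1 / (N : ℝ)) := by positivity
        linarith
      · rw [li_not hNE, add_zero]
        have h6 : ‖∑ n ∈ Icc 1 N, ψ n‖ ≤ (1 - c) * ∑ n ∈ Icc 1 N, P n + ε * N := not_lt.1 hNE
        calc ‖∑ n ∈ Icc 1 N, ψ n‖ * (1 / ((N : ℝ) * (N + 1))) ≤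
              ((1 - c) * ∑ n ∈ Icc 1 N, P n + ε * N) * (1 / ((N : ℝ) * (N + 1))) :=
              mul_le_mul_of_nonneg_right h6 e1.le
          _ = (1 - c) * ((∑ n ∈ Icc 1 N, P n) * (1 / ((N : ℝ) * (N + 1)))) +
              ε * (N * (1 / ((N : ℝ) * (N + 1)))) := by ring
          _ ≤ _ := by
              have := mul_le_mul_of_nonneg_left e2 hε.le
              linarith
    refine (sum_le_sum h5).trans ?_
    rw [sum_add_distrib, sum_add_distrib, ← mul_sum, ← mul_sum, ls_eq]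
    apply add_le_add _ le_rfl
    apply add_le_add le_rfl
    apply mul_le_mul_of_nonneg_left _ hε.le
    have h8 := harmonic_le_one_add_log X
    have h9 : ∑ i ∈ Icc 1 X, (1 : ℝ) / i = ((harmonic X : ℚ) : ℝ) := by
      rw [harmonic_eq_sum_Icc]
      push_cast
      apply sum_congr rfl
      intro i _
      rw [one_div]
    rw [h9]
    exact h8
  have h10 := norm_add_le (∑ N ∈ Icc 1 X, (∑ n ∈ Icc 1 N, ψ n) * (1 / ((N : ℂ) * (N + 1))))
    ((∑ n ∈ Icc 1 X, ψ n) / ((X : ℂ) + 1))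
  have h11 : 0 ≤ (1 - c) * ((∑ n ∈ Icc 1 X, P n) / ((X : ℝ) + 1)) :=
    mul_nonneg (by linarith) (div_nonneg (sum_nonneg fun n _ => hP0 n) (by positivity))
  have h12 : 1 + ε ≤ ε * Real.log X := by
    have := mul_le_mul_of_nonneg_left h2 hε.le
    have e : ε * (1 / ε + 1) = 1 + ε := by field_simp
    rw [e] at this
    exact this
  rw [mul_add]
  linarith

end Pool.Agent.Y958.E
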