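import Pool.Agent.Y958.E.Fixed
import Pool.Agent.Y220.EL.TKL

/-!
Library Y958.E (helper958): uniformity in the multiplicative functions, by gluing a sequence of
counterexamples along rapidly increasing blocks.
-/

set_option autoImplicit false

namespace Pool.Agent.Y958.E

open Finset Filter Topology
open Pool.Agent.TH823.MRS (ExpoSmall FlipAll lam_bdd lam_flip expo_lam)
open Pool.Agent.H376R2.MR (lam)
open Pool.Agent.Y958.U
open Pool.Agent.Y958.TC (ind Av)

open Classical in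
theorem mainNU (d : ℕ) :
    ∃ c : ℝ, 0 < c ∧ c < 1 ∧ ∀ Nl : Set ℕ → Prop, NullId Nl →
      ∀ f : ℕ → ℤ, (∀ n, |f n| ≤ 1) → FlipAll f →
      ExpoSmall (fun n => (f n : ℂ)) →
      ∀ (V : ℕ → Prop) (A : ℕ), 1 ≤ A → (∀ n, V (n + A) ↔ V n) → 0 < dv V A →
      ∀ (x : Fin (d + 1) → ℕ), Function.Injective x →
      ∀ (F : Fin d → ℕ → ℂ), (∀ i n, ‖F i n‖ ≤ 1) →
      ∀ (Bad : ℕ → Set ℕ) (s : ℕ → ℕ → ℂ) (K : ℝ), (∀ M p, ‖s M p‖ ≤ 1) →
        (∀ M p, p ∉ Bad M → 1 - c ≤ ‖s M p‖) →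
        (∀ M X : ℕ, ∑ p ∈ (Icc 1 X).filter (fun p => p.Prime ∧ p ∈ Bad M), (1 : ℝ) / p ≤ K) →
      ∀ E : Set ℕ,
        (∀ W : ℕ, ∃ N₀ : ℕ, ∀ N ∈ E, N₀ ≤ N → ∀ M, N ≤ M → M ≤ W * N → ∀ p, p.Prime → p ≤ W →
          p % A = 1 % A → p ∉ Bad M → ∀ k, M ≤ W * k → p * k ≤ M → (∀ i, ¬ p ∣ k + x i) →
            ∏ i : Fin d, F i (p * (k + x i.succ)) = s M p * ∏ i : Fin d, F i (k + x i.succ)) →
        (∀ N ∈ E, (1 - c) * dv V A < ‖AvC N (ps f V F x)‖) → Nl E :=
  mainN Pool.Agent.Y304.U.pw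
    (Pool.Agent.Y79.U.cube Pool.Agent.Y500.U.sv Pool.Agent.Y904.U.hav) Pool.Agent.Y105.U.box
    Pool.Agent.Y960.E.alg2 Pool.Agent.Y815.EC.cr d

/-- the terms -/
noncomputable def tm {d : ℕ} (h : Fin (d + 1) → ℕ) (g : Fin d → ℕ → ℂ) (Q r n : ℕ) : ℂ :=
  (ind (fun n => n % Q = r % Q) n : ℂ) * ((lam (n + h 0) : ℤ) : ℂ) * ∏ i : Fin d, g i (n + h i.succ)

/-- the sums over a residue class -/
noncomputable def Sh {d : ℕ} (h : Fin (d + 1) → ℕ) (g : Fin d → ℕ → ℂ) (Q r N : ℕ) : ℂ :=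
  ∑ n ∈ Icc 1 N, tm h g Q r n

lemma tm_le {d : ℕ} (h : Fin (d + 1) → ℕ) (g : Fin d → ℕ → ℂ) (hg : ∀ i n, ‖g i n‖ ≤ 1) (Q r n : ℕ) :
    ‖tm h g Q r n‖ ≤ 1 := by
  unfold tm
  rw [norm_mul, norm_mul, lam_norm, mul_one]
  have h1 := norm_ind_le (fun n => n % Q = r % Q) n
  have h3 := norm_prod_F g hg (fun i => n + h i.succ)
  calc ‖(ind (fun n => n % Q = r % Q) n : ℂ)‖ * ‖∏ i : Fin d, g i (n + h i.succ)‖ ≤ 1 * 1 := by gcongr
    _ = 1 := by norm_num

lemma sh_small {d : ℕ} (h : Fin (d + 1) → ℕ) (g : Fin d → ℕ → ℂ) (hg : ∀ i n, ‖g i n‖ ≤ 1) (Q r N : ℕ)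
    (hQ : 1 ≤ Q) (i : Fin d) :
    ‖Sh h g Q r N‖ ≤ ∑ m ∈ range (N / Q + 1), ‖g i (Q * m + (r % Q + h i.succ))‖ := by
  classical
  unfold Sh
  refine (norm_sum_le _ _).trans ?_
  have h3 : ∀ n ∈ Icc 1 N, ‖tm h g Q r n‖ ≤ if n % Q = r % Q then ‖g i (n + h i.succ)‖ else 0 := by
    intro n _
    unfold tm
    rw [norm_mul, norm_mul, lam_norm, mul_one]
    split_ifs with hn
    · have e1 : ind (fun n => n % Q = r % Q) n = 1 := by unfold Pool.Agent.Y958.TC.ind; rw [if_pos hn]
      rw [e1, Complex.ofReal_one, norm_one, one_mul, norm_prod, ← mul_prod_erase univ _ (mem_univ i)]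
      have h4 : ∏ x ∈ univ.erase i, ‖g x (n + h x.succ)‖ ≤ 1 :=
        prod_le_one (fun _ _ => norm_nonneg _) fun j _ => hg j _
      calc ‖g i (n + h i.succ)‖ * ∏ x ∈ univ.erase i, ‖g x (n + h x.succ)‖ ≤
          ‖g i (n + h i.succ)‖ * 1 := mul_le_mul_of_nonneg_left h4 (norm_nonneg _)
        _ = _ := mul_one _
    · have e1 : ind (fun n => n % Q = r % Q) n = 0 := by unfold Pool.Agent.Y958.TC.ind; rw [if_neg hn]
      rw [e1, Complex.ofReal_zero, norm_zero, zero_mul]
  refine (sum_le_sum h3).trans ?_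
  rw [← sum_filter]
  have h4 : ∑ n ∈ (Icc 1 N).filter (fun n => n % Q = r % Q), ‖g i (n + h i.succ)‖ =
      ∑ m ∈ ((Icc 1 N).filter (fun n => n % Q = r % Q)).image (fun n => n / Q),
        ‖g i (Q * m + (r % Q + h i.succ))‖ := by
    rw [sum_image]
    · apply sum_congr rfl
      intro n hn
      rw [mem_filter] at hn
      congr 2
      have h5 := Nat.div_add_mod n Q
      rw [hn.2] at h5
      omega
    · intro n hn m hm hnm
      rw [mem_coe, mem_filter] at hn hm
      have h5 := Nat.div_add_mod n Q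
      have h6 := Nat.div_add_mod m Q
      simp only at hnm
      rw [← h5, ← h6, hnm, hn.2, hm.2]
  rw [h4]
  apply sum_le_sum_of_subset_of_nonneg
  · intro m hm
    rw [mem_image] at hm
    obtain ⟨n, hn, rfl⟩ := hm
    rw [mem_filter, mem_Icc] at hn
    rw [mem_range]
    have := Nat.div_le_div_right (c := Q) hn.1.2
    omega
  · intro m _ _
    exact norm_nonneg _

/-- harmonic sums over windows -/
lemma harm_win (y x : ℕ) (hy : 1 ≤ y) (hyx : y ≤ x) : ∑ n ∈ Ioc y x, (1 : ℝ) / n ≤ Real.log ((x : ℝ) / y) := by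
  have hy0 : (0 : ℝ) < y := by exact_mod_cast hy
  induction x, hyx using Nat.le_induction with
  | base => simp [div_self hy0.ne']
  | succ x hx ih =>
    have hx0 : (0 : ℝ) < x := by exact_mod_cast (by omega : 0 < x)
    rw [sum_Ioc_succ_top hx]
    have h1 : Real.log (((x + 1 : ℕ) : ℝ) / y) = Real.log ((x : ℝ) / y) + Real.log (((x + 1 : ℕ) : ℝ) / x) := by
      rw [← Real.log_mul (by positivity) (by positivity)]
      congr 1
      field_simp
    have h2 : (1 : ℝ) / ((x + 1 : ℕ) : ℝ) ≤ Real.log (((x + 1 : ℕ) : ℝ) / x) := by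
      have h3 := Real.one_sub_inv_le_log_of_pos (show (0 : ℝ) < ((x + 1 : ℕ) : ℝ) / x by positivity)
      refine le_trans (le_of_eq ?_) h3
      push_cast
      field_simp
      ring
    rw [h1]
    linarith

open Classical in
theorem glue (hI : S_NWI) (d : ℕ) : ∃ c : ℝ, 0 < c ∧ c < 1 ∧ ∀ h : Fin (d + 1) → ℕ, Function.Injective h →
    ∀ Q r : ℕ, 1 ≤ Q → ∀ η : ℝ, 0 < η → ∃ ω₀ : ℕ, ∀ y x : ℕ, 1 ≤ y → ω₀ * y ≤ x →
      ∀ g : Fin d → ℕ → ℂ, (∀ i, BM (g i)) →
      ∑ N ∈ Ioc y x, (if (1 - c) * ((N : ℝ) / Q) < ‖Sh h g Q r N‖ then (1 : ℝ) / N else 0) ≤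
        η * Real.log ((x : ℝ) / y) := by
  obtain ⟨c, hc0, hc1, hU⟩ := mainNU d
  refine ⟨c / 2, by positivity, by linarith, fun h hinj Q r hQ η hη => ?_⟩
  by_contra hcon
  push Not at hcon
  choose Yf Xf hY1 hYX G hG hbad using hcon
  have hQ0 : (0 : ℝ) < Q := by exact_mod_cast hQ
  have hd0 : (0 : ℝ) < (d : ℝ) + 1 := by positivity
  set τ : ℝ := c / ((d : ℝ) + 1) with hτ
  have hτ0 : 0 < τ := by positivity
  have hτ1 : τ < 1 := by
    rw [hτ, div_lt_one hd0]
    have : (0 : ℝ) ≤ d := Nat.cast_nonneg _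
    linarith
  have hτd : (d : ℝ) * τ ≤ c := by
    rw [hτ, mul_div_assoc', div_le_iff₀ hd0]
    nlinarith
  obtain ⟨K, hK⟩ := Pool.Agent.Y220.EL.tkl τ hτ0 hτ1
  -- the thresholds of the dichotomy
  have hT : ∀ z : ℕ, ∃ N₀ : ℕ, ∀ i : Fin d, ∀ g : ℕ → ℂ, BM g →
      K ≤ ∑ p ∈ (Icc 1 z).filter (fun p => p.Prime ∧ ¬ p ∣ Q ∧ ‖g p‖ < 1 - τ), 1 / (p : ℝ) →
      ∀ N : ℕ, N₀ ≤ N → ∑ n ∈ range N, ‖g (Q * n + (r % Q + h i.succ))‖ ≤ N / 2 := by
    intro z
    have h1 : ∀ i : Fin d, ∃ N₀ : ℕ, ∀ g : ℕ → ℂ, BM g →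
      K ≤ ∑ p ∈ (Icc 1 z).filter (fun p => p.Prime ∧ ¬ p ∣ Q ∧ ‖g p‖ < 1 - τ), 1 / (p : ℝ) →
      ∀ N : ℕ, N₀ ≤ N → ∑ n ∈ range N, ‖g (Q * n + (r % Q + h i.succ))‖ ≤ N / 2 :=
      fun i => hK Q (r % Q + h i.succ) z hQ
    choose N₀ hN₀ using h1
    refine ⟨∑ i, N₀ i, fun i g hg hKg N hN => hN₀ i g hg hKg N (le_trans ?_ hN)⟩
    exact single_le_sum (f := N₀) (fun _ _ => Nat.zero_le _) (mem_univ i)
  choose Tz hTz using hT
  -- the blocks
  set Om : ℕ → ℕ → ℕ := fun P m => (m + 1) * ((m + 1) * P) +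
    ⌈Real.exp (2 / η * (1 + Real.log (((m + 1) * P : ℕ) : ℝ)))⌉₊ with hOm
  obtain ⟨P, hP0, hPs⟩ : ∃ P : ℕ → ℕ, P 0 = 1 ∧ ∀ m, P (m + 1) =
      (m + 2) * (Xf (Om (P m) m) + 1) + Tz (m + 1) * Q + P m :=
    ⟨fun m => Nat.rec 1 (fun m P => (m + 2) * (Xf (Om P m) + 1) + Tz (m + 1) * Q + P) m, rfl, fun m => rfl⟩
  have hPmono : StrictMono P := by
    apply strictMono_nat_of_lt_succ
    intro m
    rw [hPs]
    have : 0 < (m + 2) * (Xf (Om (P m) m) + 1) := by positivity
    omega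
  have hP1 : ∀ m, 1 ≤ P m := by
    intro m
    have := hPmono.monotone (Nat.zero_le m)
    omega
  have hPT : ∀ m, 1 ≤ m → Tz m * Q ≤ P m := by
    intro m hm
    obtain ⟨m', rfl⟩ : ∃ m', m = m' + 1 := ⟨m - 1, by omega⟩
    rw [hPs]
    omega
  set ym : ℕ → ℕ := fun m => Yf (Om (P m) m) with hym
  set xm : ℕ → ℕ := fun m => Xf (Om (P m) m) with hxm
  set gm : ℕ → Fin d → ℕ → ℂ := fun m => G (Om (P m) m) with hgm
  set L : ℕ → ℕ := fun m => (m + 1) * P m with hL
  set y' : ℕ → ℕ := fun m => max (ym m) (L m) with hy'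
  have hL1 : ∀ m, 1 ≤ L m := fun m => Nat.mul_pos (by omega) (hP1 m)
  have hy'1 : ∀ m, 1 ≤ y' m := fun m => (hL1 m).trans (le_max_right _ _)
  have hOmx : ∀ m, Om (P m) m * ym m ≤ xm m := fun m => hYX _
  have hym1 : ∀ m, 1 ≤ ym m := fun m => hY1 _
  have hOm1 : ∀ m, (m + 1) * L m ≤ Om (P m) m := fun m => by
    simp only [hOm, hL]
    omega
  have hOm2 : ∀ m, Real.exp (2 / η * (1 + Real.log (L m : ℝ))) ≤ (Om (P m) m : ℝ) := fun m => by
    simp only [hOm, hL]
    refine (Nat.le_ceil _).trans ?_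
    push_cast
    have : (0 : ℝ) ≤ ((m : ℝ) + 1) * (((m : ℝ) + 1) * (P m : ℝ)) := by positivity
    linarith
  have hxy' : ∀ m, (m + 1) * y' m ≤ xm m := by
    intro m
    refine le_trans ?_ (hOmx m)
    rcases le_total (ym m) (L m) with h1 | h1
    · have e : y' m = L m := max_eq_right h1
      rw [e]
      calc (m + 1) * L m ≤ Om (P m) m := hOm1 m
        _ = Om (P m) m * 1 := (mul_one _).symm
        _ ≤ Om (P m) m * ym m := Nat.mul_le_mul_left _ (hym1 m)
    · have e : y' m = ym m := max_eq_left h1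
      rw [e]
      apply Nat.mul_le_mul_right
      refine le_trans ?_ (hOm1 m)
      exact Nat.le_mul_of_pos_right _ (hL1 m)
  have hy'x : ∀ m, y' m ≤ xm m := fun m => le_trans (Nat.le_mul_of_pos_left _ (by omega)) (hxy' m)
  have hxP : ∀ m, (m + 2) * (xm m + 1) ≤ P (m + 1) := fun m => by
    rw [hPs]
    simp only [hxm]
    omega
  -- the block index
  have hex : ∀ n : ℕ, ∃ m, n < P (m + 1) := fun n => ⟨n, by
    have := hPmono.id_le (n + 1)
    simp only [id] at this
    omega⟩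
  set b : ℕ → ℕ := fun n => Nat.find (hex n) with hb
  have hbm : ∀ m n, P m ≤ n → n < P (m + 1) → b n = m := by
    intro m n h1 h2
    simp only [hb]
    rw [Nat.find_eq_iff]
    refine ⟨h2, fun m' hm' h3 => ?_⟩
    have := hPmono.monotone (by omega : m' + 1 ≤ m)
    omega
  set F : Fin d → ℕ → ℂ := fun i n => gm (b n) i n with hF
  have hgBM : ∀ m i, BM (gm m i) := fun m i => hG _ i
  have hF1 : ∀ i n, ‖F i n‖ ≤ 1 := fun i n => (hgBM (b n) i).1 n
  set good : ℕ → Prop := fun m => ∀ i : Fin d, ∑ p ∈ (Icc 1 m).filter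
    (fun p => p.Prime ∧ ¬ p ∣ Q ∧ ‖gm m i p‖ < 1 - τ), 1 / (p : ℝ) < K with hgood
  set V : ℕ → Prop := fun n => n % Q = r % Q with hV
  have hVp : ∀ n, V (n + Q) ↔ V n := fun n => by
    simp only [hV, Nat.add_mod_right]
  have hdv : dv V Q = 1 / Q := dv_class Q r hQ
  set H : ℕ := ∑ i, h i with hHd
  have hhH : ∀ i, h i ≤ H := fun i => single_le_sum (f := h) (fun _ _ => Nat.zero_le _) (mem_univ i)
  obtain ⟨m₀, hm₀⟩ := exists_nat_ge (6 * Q / c + Q / (1 - c) + H + 1)
  have hm₀H : H ≤ m₀ := by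
    have h1 : (0 : ℝ) ≤ 6 * Q / c := by positivity
    have h2 : (0 : ℝ) ≤ Q / (1 - c) := div_nonneg hQ0.le (by linarith)
    exact_mod_cast (by linarith : (H : ℝ) ≤ m₀)
  have hm₀1 : 1 ≤ m₀ := by
    have h1 : (0 : ℝ) ≤ 6 * Q / c := by positivity
    have h2 : (0 : ℝ) ≤ Q / (1 - c) := div_nonneg hQ0.le (by linarith)
    have h3 : (0 : ℝ) ≤ H := Nat.cast_nonneg _
    exact_mod_cast (by linarith : (1 : ℝ) ≤ m₀)
  set E : Set ℕ := {N | (1 - c) * dv V Q < ‖AvC N (ps lam V F h)‖ ∧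
    ∃ m, m₀ ≤ m ∧ good m ∧ y' m < N ∧ N ≤ xm m} with hE
  set Bad : ℕ → Set ℕ := fun M => {p | good (b M) ∧ p ≤ b M ∧ ¬ p ∣ Q ∧ ∃ i, ‖gm (b M) i p‖ < 1 - τ} with hBad
  set s : ℕ → ℕ → ℂ := fun M p => if good (b M) ∧ p ≤ b M ∧ ¬ p ∣ Q then ∏ i, gm (b M) i p else 1 with hs
  -- the sums of the glued functions
  have hcmp : ∀ m N, m₀ ≤ m → y' m < N → N ≤ xm m →
      ‖∑ n ∈ range N, ps lam V F h n - Sh h (gm m) Q r N‖ ≤ 3 * P m := by
    intro m N hm hN1 hN2
    have hPN : P m ≤ N := by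
      have h1 : P m ≤ L m := Nat.le_mul_of_pos_left _ (by omega)
      have h2 : L m ≤ y' m := le_max_right _ _
      omega
    have hterm : ∀ n ∈ Ico (P m) N, ps lam V F h n = tm h (gm m) Q r n := by
      intro n hn
      rw [mem_Ico] at hn
      unfold ps tm
      congr 1
      apply prod_congr rfl
      intro i _
      simp only [hF]
      rw [hbm m (n + h i.succ) (by omega) (by
        have h1 := hhH i.succ
        have h2 := hxP m
        have h3 : (m + 2) * (xm m + 1) = xm m + 1 + (m + 1) * (xm m + 1) := by ring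
        have h4 : m + 1 ≤ (m + 1) * (xm m + 1) := Nat.le_mul_of_pos_right _ (by omega)
        omega)]
    have h1 : ∑ n ∈ range N, ps lam V F h n = ∑ n ∈ range (P m), ps lam V F h n +
        ∑ n ∈ Ico (P m) N, tm h (gm m) Q r n := by
      rw [← sum_range_add_sum_Ico _ hPN]
      congr 1
      exact sum_congr rfl hterm
    have h2 : Sh h (gm m) Q r N = ∑ n ∈ Ico 1 (P m), tm h (gm m) Q r n +
        (∑ n ∈ Ico (P m) N, tm h (gm m) Q r n + tm h (gm m) Q r N) := by
      unfold Sh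
      have e : Icc 1 N = Ico 1 (N + 1) := by
        ext n; simp only [mem_Icc, mem_Ico]; omega
      rw [e, ← sum_Ico_consecutive _ (hP1 m) (by omega : P m ≤ N + 1), sum_Ico_succ_top hPN]
    have e : ∑ n ∈ range N, ps lam V F h n - Sh h (gm m) Q r N =
        ∑ n ∈ range (P m), ps lam V F h n - ∑ n ∈ Ico 1 (P m), tm h (gm m) Q r n - tm h (gm m) Q r N := by
      rw [h1, h2]; ring
    rw [e]
    have hps1 : ∀ n, ‖ps lam V F h n‖ ≤ 1 := fun n => by
      have := tm_le h F hF1 Q r n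
      exact this
    have htm1 : ∀ n, ‖tm h (gm m) Q r n‖ ≤ 1 := tm_le h (gm m) (fun i n => (hgBM m i).1 n) Q r
    have h3 : ‖∑ n ∈ range (P m), ps lam V F h n‖ ≤ P m := by
      refine (norm_sum_le _ _).trans ((sum_le_sum fun n _ => hps1 n).trans (le_of_eq ?_))
      simp
    have h4 : ‖∑ n ∈ Ico 1 (P m), tm h (gm m) Q r n‖ ≤ P m := by
      refine (norm_sum_le _ _).trans ((sum_le_sum fun n _ => htm1 n).trans ?_)
      rw [sum_const, Nat.card_Ico, nsmul_eq_mul, mul_one]
      exact_mod_cast Nat.sub_le _ _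
    have h5 := norm_sub_le (∑ n ∈ range (P m), ps lam V F h n - ∑ n ∈ Ico 1 (P m), tm h (gm m) Q r n)
      (tm h (gm m) Q r N)
    have h6 := norm_sub_le (∑ n ∈ range (P m), ps lam V F h n) (∑ n ∈ Ico 1 (P m), tm h (gm m) Q r n)
    have h7 := htm1 N
    have h8 : (1 : ℝ) ≤ P m := by exact_mod_cast hP1 m
    linarith
  -- bad scales of the blocks belong to `E`
  have hbadE : ∀ m N, m₀ ≤ m → y' m < N → N ≤ xm m → (1 - c / 2) * ((N : ℝ) / Q) < ‖Sh h (gm m) Q r N‖ →
      N ∈ E := by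
    intro m N hm hN1 hN2 hN3
    have hLN : L m < N := lt_of_le_of_lt (le_max_right _ _) hN1
    have hN0 : (0 : ℝ) < N := by exact_mod_cast (by omega : 0 < N)
    have hmm : (m₀ : ℝ) ≤ m := by exact_mod_cast hm
    refine ⟨?_, m, hm, ?_, hN1, hN2⟩
    · rw [hdv]
      unfold AvC
      rw [norm_div, Complex.norm_natCast, lt_div_iff₀ hN0]
      have h1 := hcmp m N hm hN1 hN2
      have h2 : ‖Sh h (gm m) Q r N‖ - 3 * P m ≤ ‖∑ n ∈ range N, ps lam V F h n‖ := by
        have h3 := norm_sub_norm_le (Sh h (gm m) Q r N) (∑ n ∈ range N, ps lam V F h n)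
        rw [norm_sub_rev] at h3
        linarith
      have h3 : ((m : ℝ) + 1) * P m ≤ N := by
        have : (m + 1) * P m ≤ N := hLN.le
        exact_mod_cast this
      have h4 : 6 * Q / c ≤ (m : ℝ) + 1 := by
        have h5 : (0 : ℝ) ≤ Q / (1 - c) := div_nonneg hQ0.le (by linarith)
        have h6 : (0 : ℝ) ≤ H := Nat.cast_nonneg _
        linarith
      have h5 : 3 * (P m : ℝ) ≤ c / 2 * ((N : ℝ) / Q) := by
        have hPm : (0 : ℝ) ≤ P m := Nat.cast_nonneg _
        have h6 : 6 * Q / c * P m ≤ N := (mul_le_mul_of_nonneg_right h4 hPm).trans h3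
        have h7 : 6 * Q * P m ≤ N * c := by
          have := mul_le_mul_of_nonneg_right h6 hc0.le
          refine le_trans (le_of_eq ?_) this
          field_simp
        rw [mul_div_assoc', le_div_iff₀ hQ0]
        linarith
      have h6 : (1 - c) * (1 / (Q : ℝ)) * N = (1 - c / 2) * ((N : ℝ) / Q) - c / 2 * ((N : ℝ) / Q) := by ring
      rw [h6]
      linarith
    · by_contra hng
      simp only [hgood] at hng
      push Not at hng
      obtain ⟨i, hi⟩ := hng
      have h1 := hTz m i (gm m i) (hgBM m i) hi (N / Q + 1) (by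
        have h2 : Tz m * Q ≤ N := by
          have h3 := hPT m (by omega)
          have h4 : P m ≤ L m := Nat.le_mul_of_pos_left _ (by omega)
          omega
        have h3 : Tz m ≤ N / Q := (Nat.le_div_iff_mul_le (by omega)).2 h2
        omega)
      have h2 := sh_small h (gm m) (fun i n => (hgBM m i).1 n) Q r N hQ i
      have h3 := hN3.trans_le (h2.trans h1)
      push_cast at h3
      have h4 : ((N / Q : ℕ) : ℝ) ≤ N / Q := Nat.cast_div_le
      have h5 : (Q : ℝ) / (1 - c) ≤ N := by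
        have h6 : (0 : ℝ) ≤ 6 * Q / c := by positivity
        have h7 : (0 : ℝ) ≤ H := Nat.cast_nonneg _
        have h8 : (m : ℝ) ≤ N := by
          have h9 : m + 1 ≤ L m := Nat.le_mul_of_pos_right _ (hP1 m)
          exact_mod_cast (by omega : m ≤ N)
        linarith
      rw [div_le_iff₀ (by linarith)] at h5
      have h6 : 1 ≤ (N : ℝ) / Q * (1 - c) := by
        rw [div_mul_eq_mul_div, le_div_iff₀ hQ0, one_mul]
        exact h5
      nlinarith
  -- lower bound for `E`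
  have hlow : ∀ m, m₀ ≤ m → η / 2 * Real.log ((xm m : ℝ) / y' m) ≤
      ∑ n ∈ Ioc (y' m) (xm m), if n ∈ E then (1 : ℝ) / n else 0 := by
    intro m hm
    have h1 := hbad (Om (P m) m)
    have hy0 : (0 : ℝ) < ym m := by exact_mod_cast hym1 m
    have hy'0 : (0 : ℝ) < y' m := by exact_mod_cast hy'1 m
    have hx0 : (0 : ℝ) < xm m := by
      have := hy'x m
      have := hy'1 m
      exact_mod_cast (by omega : 0 < xm m)
    have hyy' : ym m ≤ y' m := le_max_left _ _
    have h2 : ∑ N ∈ Ioc (ym m) (xm m), (if (1 - c / 2) * ((N : ℝ) / Q) < ‖Sh h (gm m) Q r N‖ then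
        (1 : ℝ) / N else 0) ≤ ∑ N ∈ Ioc (ym m) (y' m), (1 : ℝ) / N +
          ∑ n ∈ Ioc (y' m) (xm m), (if n ∈ E then (1 : ℝ) / n else 0) := by
      rw [← sum_Ioc_consecutive _ hyy' (hy'x m)]
      apply add_le_add
      · apply sum_le_sum
        intro N _
        split_ifs
        · exact le_rfl
        · positivity
      · apply sum_le_sum
        intro N hN
        rw [mem_Ioc] at hN
        split_ifs with h3 h4 h4
        · exact le_rfl
        · exact absurd (hbadE m N hm hN.1 hN.2 h3) h4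
        · positivity
        · exact le_rfl
    have h3 := harm_win (ym m) (y' m) (hym1 m) hyy'
    have h4 : Real.log ((y' m : ℝ) / ym m) ≤ η / 2 * Real.log ((xm m : ℝ) / ym m) := by
      rcases le_total (ym m) (L m) with h5 | h5
      · have e : y' m = L m := max_eq_right h5
        rw [e]
        have hL0 : (0 : ℝ) < L m := by exact_mod_cast hL1 m
        have h6 : Real.log ((L m : ℝ) / ym m) ≤ Real.log (L m) := by
          apply Real.log_le_log (by positivity)
          apply div_le_self hL0.le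
          exact_mod_cast hym1 m
        have h7 : 2 / η * (1 + Real.log (L m : ℝ)) ≤ Real.log ((xm m : ℝ) / ym m) := by
          rw [Real.le_log_iff_exp_le (by positivity)]
          refine (hOm2 m).trans ?_
          rw [le_div_iff₀ hy0]
          exact_mod_cast hOmx m
        have h8 : η / 2 * (2 / η * (1 + Real.log (L m : ℝ))) ≤ η / 2 * Real.log ((xm m : ℝ) / ym m) :=
          mul_le_mul_of_nonneg_left h7 (by positivity)
        have e2 : η / 2 * (2 / η * (1 + Real.log (L m : ℝ))) = 1 + Real.log (L m : ℝ) := by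
          field_simp
        rw [e2] at h8
        linarith
      · have e : y' m = ym m := max_eq_left h5
        rw [e, div_self hy0.ne', Real.log_one]
        apply mul_nonneg (by positivity)
        apply Real.log_nonneg
        rw [le_div_iff₀ hy0, one_mul]
        exact_mod_cast hyy'.trans (hy'x m)
    have h5 : Real.log ((xm m : ℝ) / y' m) ≤ Real.log ((xm m : ℝ) / ym m) := by
      apply Real.log_le_log (by positivity)
      apply div_le_div_of_nonneg_left hx0.le hy0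
      exact_mod_cast hyy'
    have h6 : η / 2 * Real.log ((xm m : ℝ) / y' m) ≤ η / 2 * Real.log ((xm m : ℝ) / ym m) :=
      mul_le_mul_of_nonneg_left h5 (by positivity)
    have h7 : η * Real.log ((xm m : ℝ) / ym m) <
        ∑ N ∈ Ioc (ym m) (xm m), (if (1 - c / 2) * ((N : ℝ) / Q) < ‖Sh h (gm m) Q r N‖ then
        (1 : ℝ) / N else 0) := h1
    linarith
  -- the ratio tends to infinity
  have hratio : Tendsto (fun m => (xm m : ℝ) / y' m) atTop atTop := by
    apply tendsto_atTop_mono (f := fun m : ℕ => (m : ℝ) + 1)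
    · intro m
      have hy'0 : (0 : ℝ) < y' m := by exact_mod_cast hy'1 m
      rw [le_div_iff₀ hy'0]
      exact_mod_cast hxy' m
    · exact tendsto_atTop_add_const_right _ _ tendsto_natCast_atTop_atTop
  have hNull := hI y' xm hy'1 hratio
  have hfin := hU (NW y' xm) hNull lam lam_bdd lam_flip expo_lam V Q hQ hVp
    (by rw [hdv]; positivity) h hinj F hF1 Bad s (d * |K|)
    (by
      intro M p
      simp only [hs]
      split_ifs
      · rw [norm_prod]
        exact prod_le_one (fun i _ => norm_nonneg _) fun i _ => (hgBM _ i).1 _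
      · simp)
    (by
      intro M p hp
      simp only [hs]
      split_ifs with hpA
      · have h2 : ∀ i, 1 - τ ≤ ‖gm (b M) i p‖ := by
          intro i
          by_contra hcon
          exact hp ⟨hpA.1, hpA.2.1, hpA.2.2, i, not_le.1 hcon⟩
        rw [norm_prod]
        have h3 : (1 - τ) ^ d ≤ ∏ i : Fin d, ‖gm (b M) i p‖ := by
          calc (1 - τ) ^ d = ∏ _i : Fin d, (1 - τ) := by simp
            _ ≤ ∏ i : Fin d, ‖gm (b M) i p‖ := prod_le_prod (fun i _ => by linarith) fun i _ => h2 i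
        have h4 := one_add_mul_le_pow (show (-2 : ℝ) ≤ -τ by linarith) d
        have h5 : (1 : ℝ) + d * -τ = 1 - d * τ := by ring
        rw [h5] at h4
        have h6 : (1 : ℝ) + -τ = 1 - τ := by ring
        rw [h6] at h4
        linarith
      · simp; linarith)
    (by
      intro M X
      by_cases hgd : good (b M)
      · have h2 : ∑ p ∈ (Icc 1 X).filter (fun p => p.Prime ∧ p ∈ Bad M), (1 : ℝ) / p ≤
            ∑ i : Fin d, ∑ p ∈ (Icc 1 (b M)).filter
              (fun p => p.Prime ∧ ¬ p ∣ Q ∧ ‖gm (b M) i p‖ < 1 - τ), 1 / (p : ℝ) := by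
          have h3 : (Icc 1 X).filter (fun p => p.Prime ∧ p ∈ Bad M) ⊆
              (Icc 1 (b M)).filter (fun p => p.Prime ∧ p ∈ Bad M) := by
            intro p hp
            rw [mem_filter, mem_Icc] at hp ⊢
            exact ⟨⟨hp.1.1, hp.2.2.2.1⟩, hp.2⟩
          refine (sum_le_sum_of_subset_of_nonneg h3 fun p _ _ => by positivity).trans ?_
          simp only [sum_filter]
          rw [sum_comm]
          apply sum_le_sum
          intro p _
          split_ifs with hp
          · obtain ⟨hpp, _, _, hpA, i, hi⟩ := hp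
            refine le_trans ?_ (single_le_sum (f := fun i : Fin d => if p.Prime ∧ ¬ p ∣ Q ∧
              ‖gm (b M) i p‖ < 1 - τ then 1 / (p : ℝ) else 0) (fun i _ => by split_ifs <;> positivity) (mem_univ i))
            rw [if_pos ⟨hpp, hpA, hi⟩]
          · exact sum_nonneg fun i _ => by split_ifs <;> positivity
        have h3 : ∑ i : Fin d, ∑ p ∈ (Icc 1 (b M)).filter
              (fun p => p.Prime ∧ ¬ p ∣ Q ∧ ‖gm (b M) i p‖ < 1 - τ), 1 / (p : ℝ) ≤ ∑ i : Fin d, |K| :=
          sum_le_sum fun i _ => (hgd i).le.trans (le_abs_self K)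
        have h4 : ∑ i : Fin d, |K| = d * |K| := by
          rw [sum_const, card_univ, Fintype.card_fin, nsmul_eq_mul]
        exact le_of_eq_of_le (by congr!) ((h2.trans h3).trans (le_of_eq h4))
      · have h2 : (Icc 1 X).filter (fun p => p.Prime ∧ p ∈ Bad M) = ∅ := by
          rw [filter_eq_empty_iff]
          rintro p _ ⟨_, hp⟩
          exact hgd hp.1
        refine le_of_eq_of_le (b := 0) ?_ (by positivity)
        rw [← sum_empty (f := fun p : ℕ => (1 : ℝ) / p), ← h2]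
        congr!)
    E
    (by
      intro W
      refine ⟨P (m₀ + W + W * H + 1), fun N hN hNW M hNM hMW p hp hpW hpQ hpB k hMk hpk hk => ?_⟩
      obtain ⟨-, m, hm, hgd, hN1, hN2⟩ := hN
      have hxPm := hxP m
      have hmW : W + W * H + 1 ≤ m := by
        by_contra hc
        push Not at hc
        have h1 := hPmono.monotone (by omega : m + 1 ≤ m₀ + W + W * H + 1)
        have h2 : xm m < P (m + 1) := by
          have h3 : xm m + 1 ≤ (m + 2) * (xm m + 1) := Nat.le_mul_of_pos_left _ (by omega)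
          omega
        omega
      have hLN : L m < N := lt_of_le_of_lt (le_max_right _ _) hN1
      have hPL : P m ≤ L m := Nat.le_mul_of_pos_left _ (by omega)
      have hMx : M ≤ W * xm m := hMW.trans (Nat.mul_le_mul_left _ hN2)
      have hbound : W * xm m + W * H < P (m + 1) := by
        refine lt_of_lt_of_le ?_ hxPm
        have h1 : W * xm m ≤ m * xm m := Nat.mul_le_mul_right _ (by omega)
        have h2 : (m + 2) * (xm m + 1) = m * xm m + 2 * xm m + m + 2 := by ring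
        omega
      have hW0 : 1 ≤ W := hp.one_le.trans hpW
      have hbM : b M = m := hbm m M (by omega) (by omega)
      have hk1 : P m ≤ k := by
        have h1 : L m ≤ W * k := by omega
        have h2 : W * P m ≤ W * k := by
          refine le_trans ?_ h1
          exact Nat.mul_le_mul_right _ (by omega)
        exact Nat.le_of_mul_le_mul_left h2 hW0
      have hpk2 : ∀ i, p * (k + h i) < P (m + 1) := by
        intro i
        have h1 : p * (k + h i) = p * k + p * h i := by ring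
        have h2 : p * h i ≤ W * H := Nat.mul_le_mul hpW (hhH i)
        omega
      have hk2 : ∀ i, k + h i ≤ p * (k + h i) := fun i => Nat.le_mul_of_pos_left _ hp.pos
      have hpm : p ≤ m := by omega
      have hpQ' := prime_ndvd hp hpQ
      simp only [hs]
      rw [hbM, if_pos ⟨hgd, hpm, hpQ'⟩, ← prod_mul_distrib]
      apply prod_congr rfl
      intro i _
      simp only [hF]
      rw [hbm m (p * (k + h i.succ)) (by have := hk2 i.succ; omega) (hpk2 _),
        hbm m (k + h i.succ) (by omega) (lt_of_le_of_lt (hk2 _) (hpk2 _))]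
      apply (hgBM m i).2 p _ hp.one_le (by have := hP1 m; omega)
      rw [Nat.Prime.coprime_iff_not_dvd hp]
      exact hk _)
    (fun N hN => hN.1)
  -- contradiction
  have hev := hfin.eventually_lt_const (show (0 : ℝ) < η / 2 by positivity)
  obtain ⟨m, hm1, hm2, hm3⟩ := (hev.and ((eventually_ge_atTop m₀).and (hratio.eventually_gt_atTop 1))).exists
  have h1 := hlow m hm2
  have h2 : 0 < Real.log ((xm m : ℝ) / y' m) := Real.log_pos hm3
  rw [div_lt_iff₀ h2] at hm1
  apply absurd (lt_of_lt_of_le hm1 h1)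
  apply not_lt.2
  exact le_of_eq (by congr!)

end Pool.Agent.Y958.E
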