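import Pool.Agent.Y958.E.Rel
import Pool.Agent.Y958.U.Main

/-!
Library Y958.E (helper958): the uniform bound for correlations of one Liouville factor with arbitrary
functions satisfying dilation relations.
-/

set_option autoImplicit false

namespace Pool.Agent.Y958.E

open Finset Filter Topology
open Pool.Agent.TH112.BL (Bd QD win)
open Pool.Agent.TH823.MRS (ExpoSmall FlipAll)
open Pool.Agent.Y958.U
open Pool.Agent.Y958.TC (NM ind Bd_ind ind_nonneg m_class m_sum m_shift um Av Av_bd um_tendsto sS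
  sS_tendsto div_atTop two per_mod sum_inv_large exists_ultra alp alp_f alp_mod Df b1 bad_sum QDp)

/-- complex averages over `n < N` -/
noncomputable def AvC (N : ℕ) (ψ : ℕ → ℂ) : ℂ := (∑ n ∈ range N, ψ n) / N

lemma AvC_re (N : ℕ) (ψ : ℕ → ℂ) : (AvC N ψ).re = Av N (fun n => (ψ n).re) := by
  unfold AvC Av
  rw [← Complex.re_sum, ← Complex.ofReal_natCast, Complex.div_ofReal_re]

lemma AvC_mul (N : ℕ) (ξ : ℂ) (ψ : ℕ → ℂ) : AvC N (fun n => ξ * ψ n) = ξ * AvC N ψ := by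
  unfold AvC
  rw [← mul_sum, mul_div_assoc]

lemma AvC_le (N : ℕ) (ψ : ℕ → ℂ) (h : ∀ n, ‖ψ n‖ ≤ 1) : ‖AvC N ψ‖ ≤ 1 := by
  unfold AvC
  rcases Nat.eq_zero_or_pos N with h0 | h0
  · subst h0; simp
  have hN : (0 : ℝ) < N := by exact_mod_cast h0
  rw [norm_div, Complex.norm_natCast, div_le_one hN]
  refine (norm_sum_le _ _).trans ((sum_le_sum fun n _ => h n).trans (le_of_eq ?_))
  simp

/-- finite nets of the disc -/
lemma net (τ : ℝ) (hτ : 0 < τ) : ∃ (t : Finset ℂ) (q : ℂ → {y // y ∈ t}), t.Nonempty ∧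
    (∀ y ∈ t, ‖y‖ ≤ 1) ∧ ∀ z, ‖z‖ ≤ 1 → ‖(q z : ℂ) - z‖ ≤ τ := by
  classical
  obtain ⟨t, ht, hfin, hcov⟩ := (isCompact_closedBall (0 : ℂ) 1).finite_cover_balls hτ
  have h0 : (0 : ℂ) ∈ Metric.closedBall (0 : ℂ) 1 := by simp
  have hne : hfin.toFinset.Nonempty := by
    have := hcov h0
    simp only [Set.mem_iUnion] at this
    obtain ⟨y, hy, _⟩ := this
    exact ⟨y, hfin.mem_toFinset.2 hy⟩
  have hex : ∀ z : ℂ, ∃ y : {y // y ∈ hfin.toFinset}, ‖z‖ ≤ 1 → ‖(y : ℂ) - z‖ ≤ τ := by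
    intro z
    by_cases hz : ‖z‖ ≤ 1
    · have h1 : z ∈ Metric.closedBall (0 : ℂ) 1 := by simpa using hz
      have := hcov h1
      simp only [Set.mem_iUnion] at this
      obtain ⟨y, hy, hyz⟩ := this
      refine ⟨⟨y, hfin.mem_toFinset.2 hy⟩, fun _ => ?_⟩
      rw [Metric.mem_ball, dist_comm, dist_eq_norm] at hyz
      exact hyz.le
    · obtain ⟨y, hy⟩ := hne
      exact ⟨⟨y, hy⟩, fun h => absurd h hz⟩
  choose q hq using hex
  refine ⟨hfin.toFinset, q, hne, fun y hy => ?_, hq⟩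
  have := ht (hfin.mem_toFinset.1 hy)
  simpa using this

lemma limC (𝓤 : Ultrafilter ℕ) (u : ℕ → ℂ) (h : ∀ n, ‖u n‖ ≤ 1) :
    ∃ a : ℂ, ‖a‖ ≤ 1 ∧ Tendsto u 𝓤 (𝓝 a) := by
  have h1 : IsCompact (Metric.closedBall (0 : ℂ) 1) := isCompact_closedBall 0 1
  have h2 : ((𝓤.map u : Ultrafilter ℂ) : Filter ℂ) ≤ 𝓟 (Metric.closedBall (0 : ℂ) 1) := by
    rw [le_principal_iff]
    change (u ⁻¹' Metric.closedBall (0 : ℂ) 1) ∈ (𝓤 : Filter ℕ)
    have : u ⁻¹' Metric.closedBall (0 : ℂ) 1 = Set.univ := by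
      ext n
      simp only [Set.mem_preimage, Set.mem_univ, iff_true]
      simpa using h n
    rw [this]
    exact univ_mem
  obtain ⟨x, hx0, hx⟩ := h1.ultrafilter_le_nhds _ h2
  exact ⟨x, by simpa using hx0, hx⟩

lemma prod_diff {ι : Type} (s : Finset ι) (a b : ι → ℂ) (τ : ℝ) (ha : ∀ i, ‖a i‖ ≤ 1)
    (hb : ∀ i, ‖b i‖ ≤ 1) (h : ∀ i, ‖a i - b i‖ ≤ τ) : ‖∏ i ∈ s, a i - ∏ i ∈ s, b i‖ ≤ s.card * τ := by
  classical
  induction s using Finset.induction_on with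
  | empty => simp
  | insert j s hj ih =>
    rw [prod_insert hj, prod_insert hj, card_insert_of_notMem hj]
    have e : a j * ∏ i ∈ s, a i - b j * ∏ i ∈ s, b i =
        (a j - b j) * ∏ i ∈ s, a i + b j * (∏ i ∈ s, a i - ∏ i ∈ s, b i) := by ring
    rw [e]
    refine (norm_add_le _ _).trans ?_
    rw [norm_mul, norm_mul]
    have hτ : 0 ≤ τ := (norm_nonneg _).trans (h j)
    have h1 : ‖∏ i ∈ s, a i‖ ≤ 1 := by
      rw [norm_prod]
      exact prod_le_one (fun i _ => norm_nonneg _) fun i _ => ha i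
    have h2 : ‖a j - b j‖ * ‖∏ i ∈ s, a i‖ ≤ τ * 1 := mul_le_mul (h j) h1 (norm_nonneg _) hτ
    have h3 : ‖b j‖ * ‖∏ i ∈ s, a i - ∏ i ∈ s, b i‖ ≤ 1 * (s.card * τ) :=
      mul_le_mul (hb j) ih (norm_nonneg _) zero_le_one
    push_cast
    linarith

/-- scales with many bad primes -/
lemma bad_scales (Bd' : Set ℕ) (K κ' : ℝ) (hκ : 0 < κ') (i₀ i₁ : ℕ) (h0 : 1 ≤ i₀)
    [DecidablePred fun p => p ∈ Bd']
    (hK : ∀ X : ℕ, ∑ p ∈ (Icc 1 X).filter (fun p => p.Prime ∧ p ∈ Bd'), (1 : ℝ) / p ≤ K)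
    [DecidablePred fun i : ℕ => ¬ ∑ p ∈ (QD i (i + 1)).filter (fun p => p ∈ Bd'), Real.log p / 2 ^ i ≤ κ'] :
    ∑ i ∈ (Ico i₀ i₁).filter (fun i : ℕ =>
      ¬ ∑ p ∈ (QD i (i + 1)).filter (fun p => p ∈ Bd'), Real.log p / 2 ^ i ≤ κ'), (1 : ℝ) / i ≤
      4 * K / κ' := by
  classical
  set T := (Ico i₀ i₁).filter (fun i : ℕ =>
      ¬ ∑ p ∈ (QD i (i + 1)).filter (fun p => p ∈ Bd'), Real.log p / 2 ^ i ≤ κ') with hT
  have h1 : ∀ i ∈ T, (1 : ℝ) / i ≤ 4 / κ' * ∑ p ∈ (QD i (i + 1)).filter (fun p => p ∈ Bd'), (1 : ℝ) / p := by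
    intro i hi
    rw [hT, mem_filter, mem_Ico] at hi
    obtain ⟨⟨hi1, hi2⟩, hi3⟩ := hi
    push Not at hi3
    have hi0 : (1 : ℝ) ≤ i := by exact_mod_cast (by omega : 1 ≤ i)
    have h2 : ∑ p ∈ (QD i (i + 1)).filter (fun p => p ∈ Bd'), Real.log p / 2 ^ i ≤
        4 * i * ∑ p ∈ (QD i (i + 1)).filter (fun p => p ∈ Bd'), (1 : ℝ) / p := by
      rw [mul_sum]
      apply sum_le_sum
      intro p hp
      have hpq := (mem_filter.1 hp).1
      unfold QD at hpq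
      rw [mem_filter, mem_Ioc] at hpq
      have hp0 : (0 : ℝ) < p := by exact_mod_cast hpq.2.pos
      have h3 : (p : ℝ) ≤ 2 ^ (i + 1) := by exact_mod_cast hpq.1.2
      have h5 : (0 : ℝ) < 2 ^ i := by positivity
      have hl : Real.log p ≤ (i + 1) := by
        have h4 := Real.log_le_log hp0 h3
        rw [Real.log_pow] at h4
        have h6 : Real.log 2 ≤ 1 := by
          have := Real.log_two_lt_d9
          linarith
        push_cast at h4
        nlinarith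
      rw [mul_one_div, div_le_div_iff₀ h5 hp0]
      have h7 : Real.log p * p ≤ (i + 1) * 2 ^ (i + 1) :=
        mul_le_mul hl h3 hp0.le (by linarith)
      rw [pow_succ] at h7
      nlinarith
    have h3 := hi3.trans_le h2
    rw [div_mul_eq_mul_div, le_div_iff₀ hκ, div_mul_eq_mul_div, one_mul, div_le_iff₀ (by linarith)]
    nlinarith
  refine (sum_le_sum h1).trans ?_
  rw [← mul_sum]
  have h2 : ∑ i ∈ T, ∑ p ∈ (QD i (i + 1)).filter (fun p => p ∈ Bd'), (1 : ℝ) / p ≤ K := by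
    rw [← sum_biUnion]
    · refine le_trans ?_ (hK (2 ^ (i₁ + 1)))
      apply sum_le_sum_of_subset_of_nonneg
      · intro p hp
        rw [mem_biUnion] at hp
        obtain ⟨i, hi, hpi⟩ := hp
        rw [mem_filter] at hpi
        obtain ⟨hpq, hpb⟩ := hpi
        unfold QD at hpq
        rw [mem_filter, mem_Ioc] at hpq
        rw [hT, mem_filter, mem_Ico] at hi
        rw [mem_filter, mem_Icc]
        refine ⟨⟨hpq.2.one_le, hpq.1.2.trans (Nat.pow_le_pow_right (by norm_num) (by omega))⟩, hpq.2, hpb⟩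
      · intro p _ _
        positivity
    · intro i _ j _ hij
      rw [Function.onFun, disjoint_left]
      intro p hp hp'
      have h3 := (mem_filter.1 hp).1
      have h4 := (mem_filter.1 hp').1
      unfold QD at h3 h4
      rw [mem_filter, mem_Ioc] at h3 h4
      rcases lt_or_gt_of_ne hij with h5 | h5
      · have := Nat.pow_le_pow_right (show 1 ≤ 2 by norm_num) (by omega : i + 1 ≤ j)
        omega
      · have := Nat.pow_le_pow_right (show 1 ≤ 2 by norm_num) (by omega : j + 1 ≤ i)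
        omega
  have h3 : 4 / κ' * ∑ i ∈ T, ∑ p ∈ (QD i (i + 1)).filter (fun p => p ∈ Bd'), (1 : ℝ) / p ≤ 4 / κ' * K :=
    mul_le_mul_of_nonneg_left h2 (by positivity)
  refine h3.trans (le_of_eq ?_)
  ring

end Pool.Agent.Y958.E
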