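import Pool.Agent.Y958.E.Stm
import Pool.Agent.Y958.U.Aux2

/-!
Library Y958.E (helper958): the relation attached to a prime from a large mean, and the decoupling
inequality for approximate dilation relations.
-/

set_option autoImplicit false

namespace Pool.Agent.Y958.E

open Finset Filter Topology
open Pool.Agent.TH112.BL (Bd QD win)
open Pool.Agent.Y958.U
open Pool.Agent.Y958.TC (NM ind Bd_ind ind_nonneg m_class m_sum m_shift um Av Av_bd Av_smul um_tendsto sS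
  sS_tendsto div_atTop core Df b1 QDp dil_lim card_dvd)

open Classical in
/-- unimodular part -/
noncomputable def sg (z : ℂ) : ℂ := if z = 0 then 1 else z / (‖z‖ : ℂ)

lemma sg_norm (z : ℂ) : ‖sg z‖ = 1 := by
  unfold sg
  split_ifs with h
  · exact norm_one
  · rw [norm_div, Complex.norm_real, norm_norm, div_self (norm_ne_zero_iff.2 h)]

lemma sg_mul (z : ℂ) : sg z * (‖z‖ : ℂ) = z := by
  unfold sg
  split_ifs with h
  · rw [h]; simp
  · have : (‖z‖ : ℂ) ≠ 0 := by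
      exact_mod_cast norm_ne_zero_iff.2 h
    field_simp

lemma sg_prod {ι : Type} (s : Finset ι) (g : ι → ℂ) (h : ∏ i ∈ s, g i ≠ 0) :
    sg (∏ i ∈ s, g i) = ∏ i ∈ s, sg (g i) := by
  have h1 : (∏ i ∈ s, sg (g i)) * (‖∏ i ∈ s, g i‖ : ℂ) = ∏ i ∈ s, g i := by
    rw [norm_prod]
    push_cast
    rw [← prod_mul_distrib]
    exact prod_congr rfl fun i _ => sg_mul _
  have h2 : (‖∏ i ∈ s, g i‖ : ℂ) ≠ 0 := by exact_mod_cast norm_ne_zero_iff.2 h
  exact mul_right_cancel₀ h2 ((sg_mul (∏ i ∈ s, g i)).trans h1.symm)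

lemma sg_near {z σ : ℂ} {θ : ℝ} (hσ : ‖σ‖ = 1) (hz : ‖z‖ ≤ 1) (h : ‖z - σ‖ ≤ θ) (hθ : θ < 1) :
    z ≠ 0 ∧ ‖sg z - σ‖ ≤ 2 * θ := by
  have h1 : 1 - θ ≤ ‖z‖ := by
    have := norm_sub_norm_le σ z
    rw [hσ, norm_sub_rev] at this
    linarith
  have h0 : z ≠ 0 := by
    intro h0
    rw [h0, norm_zero] at h1
    linarith
  refine ⟨h0, ?_⟩
  have h2 : ‖sg z - z‖ = 1 - ‖z‖ := by
    have e : sg z - z = sg z * ((1 - ‖z‖ : ℝ) : ℂ) := by
      push_cast
      rw [mul_sub, mul_one, sg_mul]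
    rw [e, norm_mul, sg_norm, one_mul, Complex.norm_real, Real.norm_eq_abs, abs_of_nonneg (by linarith)]
  have h3 := norm_sub_le_norm_sub_add_norm_sub (sg z) z σ
  linarith

section rel

variable (μ : NM) (f : ℕ → ℤ) (hb : ∀ n, |f n| ≤ 1) (V : ℕ → Prop) {d : ℕ} (F : Fin d → ℕ → ℂ)
  (hF : ∀ i n, ‖F i n‖ ≤ 1) (x : Fin (d + 1) → ℕ)

/-- the function attached to `p` -/
noncomputable def Gc (p n : ℕ) : ℂ :=
  (ind V n : ℂ) * ((f (n + p * x 0) : ℤ) : ℂ) * ∏ i : Fin d, F i (n + p * x i.succ)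

lemma ind_le (P : ℕ → Prop) (n : ℕ) : ind P n ≤ 1 := by
  unfold ind; split_ifs <;> norm_num

lemma norm_ind_le (P : ℕ → Prop) (n : ℕ) : ‖(ind P n : ℂ)‖ ≤ 1 := by
  rw [Complex.norm_real, Real.norm_eq_abs, abs_of_nonneg (ind_nonneg P n)]
  exact ind_le P n

include hb in
lemma norm_f_le (n : ℕ) : ‖((f n : ℤ) : ℂ)‖ ≤ 1 := by
  rw [Complex.norm_intCast]
  exact_mod_cast hb n

include hF in
lemma norm_prod_F (y : Fin d → ℕ) : ‖∏ i : Fin d, F i (y i)‖ ≤ 1 := by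
  rw [norm_prod]
  exact prod_le_one (fun i _ => norm_nonneg _) fun i _ => hF i _

include hb hF in
lemma Gc_le (p n : ℕ) : ‖Gc f V F x p n‖ ≤ 1 := by
  unfold Gc
  rw [norm_mul, norm_mul]
  have h1 := norm_ind_le V n
  have h2 := norm_f_le f hb (n + p * x 0)
  have h3 := norm_prod_F F hF (fun i => n + p * x i.succ)
  calc ‖(ind V n : ℂ)‖ * ‖((f (n + p * x 0) : ℤ) : ℂ)‖ * ‖∏ i : Fin d, F i (n + p * x i.succ)‖ ≤
      1 * 1 * 1 := by gcongr
    _ = 1 := by norm_num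

lemma re_le {z w : ℂ} (hz : ‖z‖ ≤ 1) (hw : ‖w‖ ≤ 1) : |(z * w).re| ≤ 1 := by
  refine (Complex.abs_re_le_norm _).trans ?_
  rw [norm_mul]
  calc ‖z‖ * ‖w‖ ≤ 1 * 1 := by gcongr
    _ = 1 := one_mul 1

include hb hF in
/-- a relation from a large mean -/
lemma rel_of (ζ : ℂ) (hζ : ‖ζ‖ = 1) (p : ℕ) (θ ρ₀ : ℝ) (hθ : 0 < θ) (hθ1 : θ < 1)
    (h : μ.m (ind V) - μ.m (fun n => (ζ * Gc f V F x p n).re) ≤ ρ₀) :
    Rel μ V (fun z => f z.toNat) (fun i z => sg (F i z.toNat)) (fun j => (x j : ℤ)) (2 * θ)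
      (2 * ρ₀ / θ ^ 2) (p : ℤ) := by
  set σ : ℂ := (starRingEnd ℂ) ζ with hσ
  have hσ1 : ‖σ‖ = 1 := by rw [hσ, RCLike.norm_conj, hζ]
  refine ⟨σ, hσ1, ?_⟩
  have hBG : Bd (fun n => (ζ * Gc f V F x p n).re) :=
    ⟨1, fun n => re_le hζ.le (Gc_le f hb V F hF x p n)⟩
  set P : ℕ → Prop := fun n : ℕ => V n ∧ 2 * θ < ‖(((fun z : ℤ => f z.toNat) (n + p * (x 0 : ℕ)) : ℤ) : ℂ) *
    ∏ i : Fin d, (fun (i : Fin d) (z : ℤ) => sg (F i z.toNat)) i (n + p * ((x i.succ : ℕ) : ℤ)) - σ‖ with hP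
  have key : θ ^ 2 / 2 * μ.m (ind P) ≤ ρ₀ := by
    refine le_trans ?_ h
    rw [← μ.smul _ _ (Bd_ind P), ← μ.sub (Bd_ind V) hBG]
    apply μ.mono ((Bd_ind P).cmul _)
    · have := (Bd_ind V).add (hBG.cmul (-1))
      refine (congrArg Bd ?_).mp this
      funext n
      ring
    · intro n
      have hz1 := Gc_le f hb V F hF x p n
      by_cases hV : V n
      · have e1 : ind V n = 1 := by unfold ind; rw [if_pos hV]
        rw [e1]
        set z : ℂ := ((f (n + p * x 0) : ℤ) : ℂ) * ∏ i : Fin d, F i (n + p * x i.succ) with hz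
        have hGz : Gc f V F x p n = z := by
          unfold Gc
          rw [e1, hz]
          push_cast
          ring
        rw [hGz] at hz1 ⊢
        have hsq : ‖z - σ‖ ^ 2 ≤ 2 - 2 * (ζ * z).re := by
          have h2 := Complex.sq_norm_sub_sq_re (z - σ)
          have h3 : ‖z - σ‖ ^ 2 = ‖z‖ ^ 2 + ‖σ‖ ^ 2 - 2 * (z * (starRingEnd ℂ) σ).re := by
            rw [← Complex.normSq_eq_norm_sq, ← Complex.normSq_eq_norm_sq, ← Complex.normSq_eq_norm_sq,
              Complex.normSq_sub]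
          rw [h3, hσ1, hσ, Complex.conj_conj, mul_comm z ζ]
          have h4 : ‖z‖ ^ 2 ≤ 1 := by
            have := norm_nonneg z
            nlinarith
          linarith
        by_cases hn : P n
        · have e2 : ind P n = 1 := by unfold ind; rw [if_pos hn]
          rw [e2, mul_one]
          have h5 : θ < ‖z - σ‖ := by
            by_contra hcon
            push Not at hcon
            obtain ⟨hz0, hz2⟩ := sg_near hσ1 hz1 hcon hθ1
            apply absurd hn.2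
            push Not
            refine le_trans (le_of_eq ?_) hz2
            congr 2
            have hf0 : ((f (n + p * x 0) : ℤ) : ℂ) ≠ 0 := left_ne_zero_of_mul hz0
            have hF0 : ∏ i : Fin d, F i (n + p * x i.succ) ≠ 0 := right_ne_zero_of_mul hz0
            have hsf : sg ((f (n + p * x 0) : ℤ) : ℂ) = ((f (n + p * x 0) : ℤ) : ℂ) := by
              unfold sg
              rw [if_neg hf0]
              have h6 : ‖((f (n + p * x 0) : ℤ) : ℂ)‖ = 1 := by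
                have h7 := tri_f f hb (n + p * x 0)
                rcases h7 with h7 | h7 | h7
                · rw [h7]; simp
                · rw [h7] at hf0; simp at hf0
                · rw [h7]; simp
              rw [h6]
              simp
            have hsz : sg z = ((f (n + p * x 0) : ℤ) : ℂ) * ∏ i : Fin d, sg (F i (n + p * x i.succ)) := by
              rw [← sg_prod _ _ hF0, hz]
              have hmul : sg (((f (n + p * x 0) : ℤ) : ℂ) * ∏ i : Fin d, F i (n + p * x i.succ)) =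
                  sg ((f (n + p * x 0) : ℤ) : ℂ) * sg (∏ i : Fin d, F i (n + p * x i.succ)) := by
                have h8 := sg_prod (univ : Finset (Fin 2))
                  ![((f (n + p * x 0) : ℤ) : ℂ), ∏ i : Fin d, F i (n + p * x i.succ)] (by
                    rw [Fin.prod_univ_two]
                    simpa using ⟨by simpa using hf0, hF0⟩)
                rw [Fin.prod_univ_two, Fin.prod_univ_two] at h8
                simpa using h8
              rw [hmul, hsf]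
            rw [hsz]
            have e3 : ((n : ℤ) + (p : ℤ) * ((x 0 : ℕ) : ℤ)).toNat = n + p * x 0 := by
              have : ((n : ℤ) + (p : ℤ) * ((x 0 : ℕ) : ℤ)) = ((n + p * x 0 : ℕ) : ℤ) := by push_cast; ring
              rw [this, Int.toNat_natCast]
            have e4 : ∀ i : Fin d, ((n : ℤ) + (p : ℤ) * ((x i.succ : ℕ) : ℤ)).toNat = n + p * x i.succ := by
              intro i
              have : ((n : ℤ) + (p : ℤ) * ((x i.succ : ℕ) : ℤ)) = ((n + p * x i.succ : ℕ) : ℤ) := by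
                push_cast; ring
              rw [this, Int.toNat_natCast]
            rw [e3]
            congr 1
          have h6 : θ ^ 2 ≤ ‖z - σ‖ ^ 2 := by
            apply pow_le_pow_left₀ hθ.le h5.le
          linarith
        · have e2 : ind P n = 0 := by unfold ind; rw [if_neg hn]
          rw [e2, mul_zero]
          have := re_le hζ.le hz1
          have := abs_le.1 this
          linarith
      · have e1 : ind V n = 0 := by unfold ind; rw [if_neg hV]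
        have e2 : ind P n = 0 := by unfold ind; rw [if_neg (fun h => hV h.1)]
        rw [e2, e1]
        unfold Gc
        rw [e1]
        simp
  rw [le_div_iff₀ (by positivity)]
  have : μ.m (ind P) * θ ^ 2 ≤ 2 * ρ₀ := by linarith
  exact this

end rel

/-! ### Decoupling with approximate relations -/

lemma av_cmp2 {ι : Type} (I : Finset ι) (x : ι → ℕ) (p K : ℕ) (hp : 1 ≤ p) (hK : 1 ≤ K) (s τ : ℝ) (hτ : 0 ≤ τ)
    (φ ψ : ℕ → ℝ) (hφ : ∀ n, |φ n| ≤ 1) (hψ : ∀ n, |s * ψ n| ≤ 1)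
    (h : ∀ k : ℕ, τ * K ≤ k → k < K → (∀ i ∈ I, ¬ p ∣ k + x i) → |φ (p * k) - s * ψ k| ≤ τ) :
    |Av K (fun k => φ (p * k)) - s * Av K ψ| ≤ 2 * I.card * (1 / p + 1 / K) + (3 * τ + 2 / K) := by
  classical
  have hK0 : (0 : ℝ) < K := by exact_mod_cast hK
  have hp0 : (0 : ℝ) < p := by exact_mod_cast hp
  rw [← Av_smul]
  unfold Av
  rw [← sub_div, ← sum_sub_distrib, abs_div, abs_of_pos hK0, div_le_iff₀ hK0]
  have h1 : ∀ k ∈ range K, |φ (p * k) - s * ψ k| ≤ ∑ i ∈ I, (if p ∣ k + x i then (2 : ℝ) else 0) +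
      (τ + if (k : ℝ) < τ * K then 2 else 0) := by
    intro k hk
    have hs0 : 0 ≤ ∑ i ∈ I, (if p ∣ k + x i then (2 : ℝ) else 0) :=
      sum_nonneg fun i _ => by split_ifs <;> norm_num
    have h2 := abs_sub (φ (p * k)) (s * ψ k)
    have h3 : |φ (p * k) - s * ψ k| ≤ 2 := by linarith [hφ (p * k), hψ k]
    by_cases hkτ : (k : ℝ) < τ * K
    · rw [if_pos hkτ]
      linarith
    · rw [if_neg hkτ, add_zero]
      by_cases hk' : ∀ i ∈ I, ¬ p ∣ k + x i
      · have := h k (not_lt.1 hkτ) (mem_range.1 hk) hk'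
        linarith
      · push Not at hk'
        obtain ⟨i, hi, hd⟩ := hk'
        have h4 := single_le_sum (f := fun i => if p ∣ k + x i then (2 : ℝ) else 0)
          (fun i _ => by split_ifs <;> norm_num) hi
        simp only [hd, if_true] at h4
        linarith
  refine (abs_sum_le_sum_abs _ _).trans ((sum_le_sum h1).trans ?_)
  rw [sum_add_distrib, sum_comm, sum_add_distrib]
  have h2 : ∀ i ∈ I, ∑ k ∈ range K, (if p ∣ k + x i then (2 : ℝ) else 0) ≤ 2 * (K / p + 1) := by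
    intro i _
    rw [← sum_filter, sum_const, nsmul_eq_mul, mul_comm]
    exact mul_le_mul_of_nonneg_left (card_dvd p K (x i) hp) (by norm_num)
  have h3 : ∑ k ∈ range K, (if (k : ℝ) < τ * K then (2 : ℝ) else 0) ≤ 2 * (τ * K + 1) := by
    rw [← sum_filter, sum_const, nsmul_eq_mul, mul_comm]
    apply mul_le_mul_of_nonneg_left _ (by norm_num)
    have h5 : (range K).filter (fun k : ℕ => (k : ℝ) < τ * K) ⊆ range (⌈τ * K⌉₊) := by
      intro k hk
      rw [mem_filter] at hk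
      rw [mem_range, Nat.lt_ceil]
      exact hk.2
    have h6 := card_le_card h5
    rw [card_range] at h6
    have h7 : (((range K).filter (fun k : ℕ => (k : ℝ) < τ * K)).card : ℝ) ≤ (⌈τ * K⌉₊ : ℝ) := by
      exact_mod_cast h6
    have h8 := (Nat.ceil_lt_add_one (by positivity : 0 ≤ τ * K)).le
    linarith
  have h4 : ∑ k ∈ range K, τ = τ * K := by
    rw [sum_const, card_range, nsmul_eq_mul, mul_comm]
  have h5 := sum_le_sum h2
  rw [sum_const, nsmul_eq_mul] at h5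
  rw [h4]
  have e : (2 * (I.card : ℝ) * (1 / p + 1 / K) + (3 * τ + 2 / K)) * K =
      I.card * (2 * (K / p + 1)) + (τ * K + 2 * (τ * K + 1)) := by
    field_simp
    ring
  rw [e]
  linarith

lemma sS_cmp2 (𝓤 : Ultrafilter ℕ) (hU : (𝓤 : Filter ℕ) ≤ atTop) {ι : Type} (I : Finset ι) (x : ι → ℕ)
    (p : ℕ) (hp : 1 ≤ p) (s τ : ℝ) (hτ : 0 ≤ τ) (hs : |s| ≤ 1)
    (φ ψ : ℕ → ℝ) (hφ : ∀ n, |φ n| ≤ 1) (hψ : ∀ n, |ψ n| ≤ 1)
    (h : ∀ᶠ M in (𝓤 : Filter ℕ), ∀ k : ℕ, τ * ((M / p : ℕ) : ℝ) ≤ k → k < M / p → (∀ i ∈ I, ¬ p ∣ k + x i) →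
      |φ (p * k) - s * ψ k| ≤ τ) :
    |(um 𝓤 hU).m (fun n => φ (n + (p - n % p) % p)) - s * sS 𝓤 ψ p| ≤ 2 * I.card / p + 3 * τ := by
  have h1 := dil_lim 𝓤 hU p hp φ hφ
  have h2 := (sS_tendsto 𝓤 hψ p).const_mul s
  have h3 := (h1.sub h2).abs
  have hinv : Tendsto (fun M : ℕ => 1 / ((M / p : ℕ) : ℝ)) 𝓤 (𝓝 0) :=
    tendsto_one_div_atTop_nhds_zero_nat.comp (div_atTop 𝓤 hU p hp)
  have hinv2 : Tendsto (fun M : ℕ => 2 / ((M / p : ℕ) : ℝ)) 𝓤 (𝓝 0) := by
    have := hinv.const_mul 2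
    rw [mul_zero] at this
    refine this.congr fun M => ?_
    ring
  have h4 : Tendsto (fun M : ℕ => 2 * (I.card : ℝ) * (1 / p + 1 / ((M / p : ℕ) : ℝ)) +
      (3 * τ + 2 / ((M / p : ℕ) : ℝ))) 𝓤 (𝓝 (2 * (I.card : ℝ) * (1 / p + 0) + (3 * τ + 0))) :=
    ((hinv.const_add _).const_mul _).add (hinv2.const_add _)
  have h5 := le_of_tendsto_of_tendsto h3 h4 (by
    filter_upwards [hU (eventually_ge_atTop p), h] with M hM hM2
    apply av_cmp2 I x p (M / p) hp ((Nat.one_le_div_iff hp).2 hM) s τ hτ φ ψ hφ _ hM2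
    intro n
    rw [abs_mul]
    calc |s| * |ψ n| ≤ 1 * 1 := mul_le_mul hs (hψ n) (abs_nonneg _) zero_le_one
      _ = 1 := one_mul 1)
  refine h5.trans (le_of_eq ?_)
  ring

/-- **the decoupling inequality**: for functions `G p` with `G p (p k) = s p * ψ k` up to `τ`, for the
primes `p` in a set `P` -/
lemma dec2 (𝓤 : Ultrafilter ℕ) (hU : (𝓤 : Filter ℕ) ≤ atTop) {A : Type} [Fintype A] [Nonempty A]
    (a : ℕ → A) (c : ℕ) {ε : ℝ} (hε : 0 < ε) (i : ℕ) (hi1 : 1 ≤ i)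
    (h2 : (i : ℝ) / 2 ^ i < (ε / 30) * ε / 3)
    (hD : Df (um 𝓤 hU) a b1 () c i ≤ ((ε / 30) * ε / 3) * 2 ^ i / i)
    (G : ℕ → ℕ → ℝ) (hG : ∀ p n, |G p n| ≤ 1)
    (hG' : ∀ p ∈ QD i (i + 1), ∀ n n' : ℕ, win (c * 2 ^ i) a n = win (c * 2 ^ i) a n' →
      ∀ j < p, G p (n + j) = G p (n' + j))
    {ι : Type} (I : Finset ι) (x : ι → ℕ) (s : ℕ → ℝ) (hs : ∀ p, |s p| ≤ 1) (ψ : ℕ → ℝ)
    (hψ : ∀ n, |ψ n| ≤ 1) (τ : ℝ) (hτ : 0 ≤ τ)
    (P : Finset ℕ) (hP : P ⊆ QD i (i + 1))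
    (hGψ : ∀ p ∈ P, ∀ᶠ M in (𝓤 : Filter ℕ), ∀ k : ℕ, τ * ((M / p : ℕ) : ℝ) ≤ k → k < M / p →
      (∀ i ∈ I, ¬ p ∣ k + x i) → |G p (p * k) - s p * ψ k| ≤ τ) :
    ∑ p ∈ P, Real.log p / 2 ^ i * |s p * sS 𝓤 ψ p - (um 𝓤 hU).m (G p)| ≤
      ε + 6 * I.card / 2 ^ i + 9 * τ := by
  have key := core (um 𝓤 hU) a c hε i hi1 h2 hD G hG hG'
  have h5 : (0 : ℝ) < 2 ^ i := by positivity
  have hl : ∀ p ∈ QD i (i + 1), 0 ≤ Real.log p / 2 ^ i := fun p _ =>
    div_nonneg (Real.log_natCast_nonneg _) h5.le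
  have h1 : ∑ p ∈ P, Real.log p / 2 ^ i * |s p * sS 𝓤 ψ p - (um 𝓤 hU).m (G p)| ≤
      ∑ p ∈ P, (Real.log p / 2 ^ i *
        |(um 𝓤 hU).m (fun n => G p (n + (p - n % p) % p)) - (um 𝓤 hU).m (G p)| +
        Real.log p / 2 ^ i * (2 * I.card / 2 ^ i + 3 * τ)) := by
    apply sum_le_sum
    intro p hp
    have hpq := hP hp
    have hpp := (QDp hpq).pos
    rw [← mul_add]
    apply mul_le_mul_of_nonneg_left _ (hl p hpq)
    have h6 := sS_cmp2 𝓤 hU I x p hpp (s p) τ hτ (hs p) (G p) ψ (hG p) hψ (hGψ p hp)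
    have h7 : (2 : ℝ) * I.card / p ≤ 2 * I.card / 2 ^ i := by
      apply div_le_div_of_nonneg_left (by positivity) h5
      unfold QD at hpq
      rw [mem_filter, mem_Ioc] at hpq
      exact_mod_cast hpq.1.1.le
    have h8 := abs_sub_le (s p * sS 𝓤 ψ p) ((um 𝓤 hU).m (fun n => G p (n + (p - n % p) % p)))
      ((um 𝓤 hU).m (G p))
    rw [abs_sub_comm (s p * sS 𝓤 ψ p) ((um 𝓤 hU).m (fun n => G p (n + (p - n % p) % p)))] at h8
    linarith
  refine h1.trans ?_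
  rw [sum_add_distrib, add_assoc]
  apply add_le_add
  · refine le_trans (sum_le_sum_of_subset_of_nonneg hP ?_) key
    intro p hp _
    exact mul_nonneg (hl p hp) (abs_nonneg _)
  · rw [← sum_mul]
    have h6 : ∑ p ∈ P, Real.log (p : ℝ) / 2 ^ i ≤ 3 := by
      refine (sum_le_sum_of_subset_of_nonneg hP fun p hp _ => hl p hp).trans ?_
      rw [← sum_div, div_le_iff₀ h5]
      exact Pool.Agent.TH575.CW.theta_QD i
    calc (∑ p ∈ P, Real.log (p : ℝ) / 2 ^ i) * (2 * I.card / 2 ^ i + 3 * τ) ≤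
          3 * (2 * I.card / 2 ^ i + 3 * τ) := mul_le_mul_of_nonneg_right h6 (by positivity)
      _ = 6 * I.card / 2 ^ i + 9 * τ := by ring

end Pool.Agent.Y958.E
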