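import Pool.Agent.Y958.E.Final
import Pool.Agent.Y220.EL.TKL

/-!
Library Y958.E (helper958): final statement for fixed functions.
-/

set_option autoImplicit false

namespace Pool.Agent.Y958.E

open Finset Filter Topology
open Pool.Agent.H376R2.MR (lam)
open Pool.Agent.Y958.U

/-- finite pretentious distance from `λ χ n ^ (i t)` for some Dirichlet character `χ` and real `t` -/
def Pret (g : ℕ → ℂ) : Prop := ∃ (q : ℕ) (χ : DirichletCharacter ℂ q) (t : ℝ), 1 ≤ q ∧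
  Summable (fun p : Nat.Primes => (1 - (g p * (starRingEnd ℂ) ((-1) ^ ArithmeticFunction.cardFactors p *
    χ ((p : ℕ) : ZMod q) * nit t p)).re) / ((p : ℕ) : ℝ))

lemma bm_tw {g : ℕ → ℂ} (hg : BM g) (t : ℝ) : BM (fun n => g n * (starRingEnd ℂ) (nit t n)) := by
  refine ⟨fun n => ?_, fun m n hm hn hmn => ?_⟩
  · rw [norm_mul, RCLike.norm_conj, nit_norm, mul_one]
    exact hg.1 n
  · show g (m * n) * (starRingEnd ℂ) (nit t (m * n)) = g m * (starRingEnd ℂ) (nit t m) *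
      (g n * (starRingEnd ℂ) (nit t n))
    rw [hg.2 m n hm hn hmn, nit_mul t hm hn, map_mul]
    ring

lemma ap_of (hA : S_APX2) {g : ℕ → ℂ} (hg : BM g) (h : Pret g) :
    ∃ t : ℝ, AP (fun n => ((lam n : ℤ) : ℂ) * (g n * (starRingEnd ℂ) (nit t n))) := by
  obtain ⟨q, χ, t, hq, hs⟩ := h
  refine ⟨t, hA q hq χ _ (bm_lam (bm_tw hg t)) ?_⟩
  refine hs.congr fun p => ?_
  congr 3
  rw [lam_prime _ p.2, ArithmeticFunction.cardFactors_apply_prime p.2, pow_one, map_mul, map_mul]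
  push_cast
  simp only [map_neg, map_one]
  ring

/-- **final statement** -/
theorem finE (hA : S_APX2) : ∃ c : ℕ → ℝ, (∀ k, 0 < c k) ∧ ∀ (k : ℕ) (a b : Fin k → ℕ), (∀ i, 1 ≤ a i) →
    (∀ i j, i ≠ j → a i * b j ≠ a j * b i) → ∀ g : Fin k → ℕ → ℂ, (∀ i, BM (g i)) → ∀ j, Pret (g j) →
    ∃ 𝓔 : Set ℕ, LZ 𝓔 ∧ ∀ ε : ℝ, 0 < ε → ∃ N₀ : ℕ, ∀ N : ℕ, N₀ ≤ N →
      (N ∉ 𝓔 → ‖∑ n ∈ Icc 1 N, ∏ i, g i (a i * n + b i)‖ ≤
        (1 - c k) * ∑ n ∈ Icc 1 N, ‖g j (a j * n + b j)‖ + ε * N) ∧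
      ‖∑ n ∈ Icc 1 N, (∏ i, g i (a i * n + b i)) / n‖ ≤
        (1 - c k) * ∑ n ∈ Icc 1 N, ‖g j (a j * n + b j)‖ / n + ε * Real.log N := by
  classical
  choose c hc0 hc1 hF using forms3 Pool.Agent.Y220.EL.tkl
  refine ⟨fun k => c (k - 1), fun k => hc0 _, fun k a b ha hab g hg j hj => ?_⟩
  obtain ⟨d, rfl⟩ : ∃ d, k = d + 1 := ⟨k - 1, by have := j.pos; omega⟩
  simp only [Nat.add_sub_cancel]
  obtain ⟨t, ht⟩ := ap_of hA (hg j) hj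
  have h1 := hF d a b ha hab g hg j t ht
  set E : ℕ → Set ℕ := fun m => {N : ℕ | (1 - c d) * ∑ n ∈ Icc 1 N, ‖g j (a j * n + b j)‖ +
    (1 / ((m : ℝ) + 1)) * N < ‖∑ n ∈ Icc 1 N, Cs a b g n‖} with hE
  obtain ⟨𝓔, h𝓔, hdiag⟩ := diag' E fun m => h1 (1 / ((m : ℝ) + 1)) (by positivity)
  refine ⟨𝓔, h𝓔, fun ε hε => ?_⟩
  obtain ⟨m, hm⟩ := exists_nat_one_div_lt hε
  obtain ⟨N₀, hN₀⟩ := hdiag m
  have hCs1 : ∀ n, ‖Cs a b g n‖ ≤ 1 := by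
    intro n
    unfold Cs
    rw [norm_prod]
    exact prod_le_one (fun _ _ => norm_nonneg _) fun i _ => (hg i).1 _
  obtain ⟨X₀, hX₀⟩ := logC (Cs a b g) (fun n => ‖g j (a j * n + b j)‖) hCs1 (fun n => norm_nonneg _)
    (c d) (ε / 4) (hc1 d) (by positivity) (h1 (ε / 4) (by positivity))
  refine ⟨N₀ + X₀, fun N hN => ⟨fun hNE => ?_, ?_⟩⟩
  · by_contra hcon
    apply hNE
    apply hN₀ N _ (by omega)
    show (1 - c d) * ∑ n ∈ Icc 1 N, ‖g j (a j * n + b j)‖ + (1 / ((m : ℝ) + 1)) * N < ‖∑ n ∈ Icc 1 N, Cs a b g n‖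
    have h2 := not_le.1 hcon
    refine lt_of_le_of_lt ?_ h2
    have : (1 / ((m : ℝ) + 1)) * N ≤ ε * N := mul_le_mul_of_nonneg_right hm.le (Nat.cast_nonneg _)
    linarith
  · have h2 := hX₀ N (by omega)
    have e : 4 * (ε / 4) = ε := by ring
    rw [e] at h2
    exact h2

end Pool.Agent.Y958.E
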