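import Pool.Agent.Y958.U.Pol

/-!
Library Y958.E (helper958): correlations of the Liouville function with arbitrary 1-bounded multiplicative
functions are at most `(1 - c_k)` of the trivial bound (a step towards Elliott's conjecture). Exact
statements of the tasks.
-/

set_option autoImplicit false

open Finset

namespace Pool.Agent.Y958.E

open Pool.Agent.Y958.U Pool.Agent.Y958.TC

/-- 1-bounded multiplicative functions -/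
def BM (g : ℕ → ℂ) : Prop :=
  (∀ n, ‖g n‖ ≤ 1) ∧ ∀ m n : ℕ, 1 ≤ m → 1 ≤ n → Nat.Coprime m n → g (m * n) = g m * g n

open Classical in
/-- (TKL) if `‖g p‖ < 1 - τ` for many primes, then the means of `‖g (a n + b)‖` are small -/
def S_TKL : Prop := ∀ τ : ℝ, 0 < τ → τ < 1 → ∃ K : ℝ, ∀ a b z : ℕ, 1 ≤ a → ∃ N₀ : ℕ, ∀ g : ℕ → ℂ, BM g →
  K ≤ ∑ p ∈ (Icc 1 z).filter (fun p => p.Prime ∧ ¬ p ∣ a ∧ ‖g p‖ < 1 - τ), 1 / (p : ℝ) →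
  ∀ N : ℕ, N₀ ≤ N → ∑ n ∈ range N, ‖g (a * n + b)‖ ≤ N / 2

/-- (APX) multiplicative functions near a Dirichlet character are nearly periodic -/
def S_APX : Prop := ∀ (q : ℕ), 1 ≤ q → ∀ (χ : DirichletCharacter ℂ q) (h : ℕ → ℂ), BM h →
  Summable (fun p : Nat.Primes => ‖h p - χ ((p : ℕ) : ZMod q)‖ / ((p : ℕ) : ℝ)) →
  ∀ ε : ℝ, 0 < ε → ∃ (Q : ℕ) (w : ℕ → ℂ), 1 ≤ Q ∧ (∀ n, ‖w n‖ ≤ 1) ∧ (∀ n, w (n + Q) = w n) ∧
    ∃ N₀ : ℕ, ∀ N : ℕ, N₀ ≤ N → ∑ n ∈ range N, ‖h n - w n‖ ≤ ε * N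

/-- (ALG2) from the relations of the cubes to a relation with two terms -/
def S_ALG2 : Prop := ∀ d L : ℕ, ∃ Mc : ℕ, ∀ A : ℕ, 1 ≤ A → ∀ x : Fin (d + 1) → ℤ,
  Function.Injective x → ∃ R : ℕ, 1 ≤ R ∧ A ∣ R ∧ ∃ G : Fin d → ℕ, (∀ i, 1 ≤ G i) ∧
    ∀ (r : Fin d → ℤ) (j : Fin d → ℕ), (∀ i, 1 ≤ j i ∧ j i ≤ L) →
    ∀ (n : Finset (Fin d) → ℤ) (H : LaurentPolynomial (ZMod 2) → ℕ → Prop),
      (∀ g g' a a', H g a → H g' a' → H (g + g') (a + a')) →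
      (∀ g a (t : ℤ), (A : ℤ) ∣ t → H g a → H (LaurentPolynomial.T t * g) a) →
      (∀ g a a', a ≤ a' → H g a → H g a') →
      (∀ ω : Finset (Fin d), H (LaurentPolynomial.T ((1 + A * n ω) * x 0) * ∏ i, (1 + LaurentPolynomial.T
        ((A : ℤ) * ((r i + if i ∈ ω then (j i : ℤ) * G i else 0) * (x 0 - x i.succ))))) (2 ^ d)) →
      ∃ y : ℤ, H (LaurentPolynomial.T y * (1 + LaurentPolynomial.T (R : ℤ))) Mc

/-- the relation attached to the integer `p`: `φ (n + p x 0) ∏ u i (n + p x (i + 1))` is nearly constant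
on `V`, up to an exceptional set of mean `ρ` -/
def Rel (μ : NM) (V : ℕ → Prop) (φ : ℤ → ℤ) {d : ℕ} (u : Fin d → ℤ → ℂ) (x : Fin (d + 1) → ℤ) (θ ρ : ℝ)
    (p : ℤ) : Prop :=
  ∃ σ : ℂ, ‖σ‖ = 1 ∧ μ.m (ind (fun n : ℕ => V n ∧
    θ < ‖(φ (n + p * x 0) : ℂ) * ∏ i : Fin d, u i (n + p * x i.succ) - σ‖)) ≤ ρ

/-- (CR) the relations at the vertices of a cube give a relation for `φ` alone -/
def S_CR : Prop := ∀ (μ : NM) (V : ℕ → Prop) (A : ℕ), 1 ≤ A → (∀ n, V (n + A) ↔ V n) →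
  ∀ φ : ℤ → ℤ, Tri φ → ∀ (d : ℕ) (u : Fin d → ℤ → ℂ), (∀ i n, ‖u i n‖ = 1) →
  ∀ (x : Fin (d + 1) → ℤ) (θ ρ : ℝ), 0 ≤ θ → 2 ^ d * θ < 1 → ∀ (ν : ℤ) (r : Fin d → ℤ),
    (∀ η : Finset (Fin d), Rel μ V φ u x θ ρ (1 + A * (ν + ∑ i ∈ η, r i))) →
    HH μ φ V ρ (LaurentPolynomial.T ((1 + A * ν) * x 0) *
      ∏ i, (1 + LaurentPolynomial.T ((A : ℤ) * (r i * (x 0 - x i.succ))))) (2 ^ d)

end Pool.Agent.Y958.E
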