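import Pool.Agent.Y958.E.Stm2

/-!
Library Y958.E (helper958): null sets for windows of scales.
-/

set_option autoImplicit false

open Finset

namespace Pool.Agent.Y958.E

open Pool.Agent.Y958.U

/-- ideals of null sets of scales for which the averaging lemma holds -/
structure NullId (Nl : Set ℕ → Prop) : Prop where
  sub : ∀ E F : Set ℕ, E ⊆ F → Nl F → Nl E
  union : ∀ E F : Set ℕ, Nl E → Nl F → Nl (E ∪ F)
  bdd : ∀ (E : Set ℕ) (K : ℕ), (∀ n ∈ E, n < K) → Nl E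
  avc : ∀ E E' : Set ℕ, ¬ Nl E → Nl E' → ∃ ε : ℝ, 0 < ε ∧ ∃ I₀ : ℕ, ∀ i₀ i₁ : ℕ,
    I₀ ≤ i₀ → i₀ < i₁ → ∀ M₀ : ℕ, ∃ M : ℕ, M₀ ≤ M ∧ M ∉ E' ∧
      ε * ∑ i ∈ Ico i₀ i₁, (1 : ℝ) / i ≤
        ∑ i ∈ Ico i₀ i₁, (1 : ℝ) / i * ∑ p ∈ QQ i, Real.log p / 2 ^ i *
          (open Classical in if M / p ∈ E then 1 else 0)

open Classical in
/-- logarithmic density zero in the windows `(y m, x m]` -/
def NW (y x : ℕ → ℕ) (E : Set ℕ) : Prop := Filter.Tendsto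
  (fun m : ℕ => (∑ n ∈ Ioc (y m) (x m), if n ∈ E then (1 : ℝ) / n else 0) /
    Real.log ((x m : ℝ) / y m)) Filter.atTop (nhds 0)

/-- (NWI) windows `(y m, x m]` with `x m / y m → ∞` -/
def S_NWI : Prop := ∀ y x : ℕ → ℕ, (∀ m, 1 ≤ y m) →
  Filter.Tendsto (fun m => (x m : ℝ) / y m) Filter.atTop Filter.atTop → NullId (NW y x)

end Pool.Agent.Y958.E
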