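import Pool.Agent.Y958.E.Glue
import Pool.Agent.Y958.E.Final
import Pool.Agent.Y434.E.Nwi

/-!
Library Y958.E (helper958): uniform statements in windows of scales.
-/

set_option autoImplicit false

namespace Pool.Agent.Y958.E

open Finset Filter Topology
open Pool.Agent.H376R2.MR (lam)
open Pool.Agent.Y958.U
open Pool.Agent.Y958.TC (ind)

theorem glue' (d : ℕ) : ∃ c : ℝ, 0 < c ∧ c < 1 ∧ ∀ h : Fin (d + 1) → ℕ, Function.Injective h →
    ∀ Q r : ℕ, 1 ≤ Q → ∀ η : ℝ, 0 < η → ∃ ω₀ : ℕ, ∀ y x : ℕ, 1 ≤ y → ω₀ * y ≤ x →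
      ∀ g : Fin d → ℕ → ℂ, (∀ i, BM (g i)) →
      ∑ N ∈ Ioc y x, (open Classical in
        if (1 - c) * ((N : ℝ) / Q) < ‖Sh h g Q r N‖ then (1 : ℝ) / N else 0) ≤
        η * Real.log ((x : ℝ) / y) := by
  obtain ⟨c, h0, h1, h2⟩ := glue (Pool.Agent.Y434.E.Nwi.nwi Pool.Agent.Y304.U.pw) d
  exact ⟨c, h0, h1, h2⟩

lemma log_nonneg' {y x ω₀ : ℕ} (hy : 1 ≤ y) (hω : 1 ≤ ω₀) (hx : ω₀ * y ≤ x) :
    Real.log (ω₀ : ℝ) ≤ Real.log ((x : ℝ) / y) := by
  have hy0 : (0 : ℝ) < y := by exact_mod_cast hy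
  have hω0 : (0 : ℝ) < ω₀ := by exact_mod_cast hω
  apply Real.log_le_log hω0
  rw [le_div_iff₀ hy0]
  exact_mod_cast hx

/-- with periodic weights of bounded period -/
theorem wts (d : ℕ) : ∃ c : ℝ, 0 < c ∧ c < 1 ∧ ∀ h : Fin (d + 1) → ℕ, Function.Injective h →
    ∀ (B : ℕ) (η : ℝ), 0 < η → ∃ ω₀ : ℕ, 1 ≤ ω₀ ∧ ∀ y x : ℕ, 1 ≤ y → ω₀ * y ≤ x →
      ∀ g : Fin d → ℕ → ℂ, (∀ i, BM (g i)) → ∀ (q : ℕ) (w : ℕ → ℂ), 1 ≤ q → q ≤ B → (∀ n, ‖w n‖ ≤ 1) →
      (∀ n, w (n + q) = w n) →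
      ∑ N ∈ Ioc y x, (open Classical in
        if (1 - c) * (N : ℝ) < ‖∑ n ∈ Icc 1 N, w n * (((lam (n + h 0) : ℤ) : ℂ) * ∏ i : Fin d, g i (n + h i.succ))‖
          then (1 : ℝ) / N else 0) ≤
        η * Real.log ((x : ℝ) / y) := by
  classical
  obtain ⟨c, hc0, hc1, hG⟩ := glue' d
  refine ⟨c, hc0, hc1, fun h hinj B η hη => ?_⟩
  have hB0 : (0 : ℝ) < (B : ℝ) + 1 := by positivity
  have h1 : ∀ (Q r : ℕ), ∃ ω₀ : ℕ, 1 ≤ Q → ∀ y x : ℕ, 1 ≤ y → ω₀ * y ≤ x →
      ∀ g : Fin d → ℕ → ℂ, (∀ i, BM (g i)) →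
      ∑ N ∈ Ioc y x, (if (1 - c) * ((N : ℝ) / Q) < ‖Sh h g Q r N‖ then (1 : ℝ) / N else 0) ≤
        η / (B + 1) * Real.log ((x : ℝ) / y) := by
    intro Q r
    by_cases hQ : 1 ≤ Q
    · obtain ⟨ω₀, hω⟩ := hG h hinj Q r hQ (η / (B + 1)) (by positivity)
      exact ⟨ω₀, fun _ => hω⟩
    · exact ⟨0, fun hh => absurd hh hQ⟩
  choose ω hω using h1
  refine ⟨1 + ∑ q ∈ range (B + 1), ∑ r ∈ range (B + 1), ω q r, by omega, fun y x hy hx g hg q w hq hqB hw1 hwq => ?_⟩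
  have hx' : ∀ r ∈ range q, ω q r * y ≤ x := by
    intro r hr
    refine le_trans (Nat.mul_le_mul_right _ ?_) hx
    rw [mem_range] at hr
    have h2 : ω q r ≤ ∑ r ∈ range (B + 1), ω q r :=
      single_le_sum (f := fun r => ω q r) (fun _ _ => Nat.zero_le _) (mem_range.2 (by omega))
    have h3 : ∑ r ∈ range (B + 1), ω q r ≤ ∑ q ∈ range (B + 1), ∑ r ∈ range (B + 1), ω q r :=
      single_le_sum (f := fun q => ∑ r ∈ range (B + 1), ω q r) (fun _ _ => Nat.zero_le _) (mem_range.2 (by omega))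
    omega
  have hq0 : (0 : ℝ) < q := by exact_mod_cast hq
  have hlog : 0 ≤ Real.log ((x : ℝ) / y) := by
    have := log_nonneg' (ω₀ := 1) hy le_rfl (by
      refine le_trans (Nat.mul_le_mul_right _ ?_) hx
      omega)
    simpa using this
  have h2 : ∑ N ∈ Ioc y x, (if (1 - c) * (N : ℝ) < ‖∑ n ∈ Icc 1 N, w n * (((lam (n + h 0) : ℤ) : ℂ) *
      ∏ i : Fin d, g i (n + h i.succ))‖ then (1 : ℝ) / N else 0) ≤
      ∑ r ∈ range q, ∑ N ∈ Ioc y x, (if (1 - c) * ((N : ℝ) / q) < ‖Sh h g q r N‖ then (1 : ℝ) / N else 0) := by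
    rw [sum_comm]
    apply sum_le_sum
    intro N hN
    split_ifs with hbad
    · by_contra hcon
      push Not at hcon
      have h3 : ∀ r ∈ range q, ‖Sh h g q r N‖ ≤ (1 - c) * ((N : ℝ) / q) := by
        intro r hr
        by_contra h4
        apply absurd hcon
        push Not
        refine le_trans ?_ (single_le_sum (f := fun r => if (1 - c) * ((N : ℝ) / q) < ‖Sh h g q r N‖ then
          (1 : ℝ) / N else 0) (fun r _ => by split_ifs <;> positivity) hr)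
        rw [if_pos (not_le.1 h4)]
      have h4 : ∑ n ∈ Icc 1 N, w n * (((lam (n + h 0) : ℤ) : ℂ) * ∏ i : Fin d, g i (n + h i.succ)) =
          ∑ r ∈ range q, w r * Sh h g q r N := by
        unfold Sh
        simp only [mul_sum]
        rw [sum_comm]
        apply sum_congr rfl
        intro n _
        rw [sum_eq_single (n % q)]
        · unfold tm
          have e1 : ind (fun m => m % q = n % q % q) n = 1 := by
            unfold Pool.Agent.Y958.TC.ind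
            rw [if_pos (Nat.mod_mod _ _).symm]
          have e2 : w (n % q) = w n := by
            have h1 : ∀ k m, w (m + q * k) = w m := by
              intro k
              induction k with
              | zero => intro m; simp
              | succ k ih =>
                intro m
                rw [mul_add, mul_one, ← add_assoc, hwq, ih]
            have h2 := h1 (n / q) (n % q)
            rw [Nat.mod_add_div] at h2
            exact h2.symm
          rw [e1, e2]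
          push_cast
          ring
        · intro r hr hne
          unfold tm
          have e1 : ind (fun m => m % q = r % q) n = 0 := by
            unfold Pool.Agent.Y958.TC.ind
            rw [if_neg]
            intro hh
            rw [Nat.mod_eq_of_lt (mem_range.1 hr)] at hh
            exact hne hh.symm
          rw [e1]
          simp
        · intro hh
          exact absurd (mem_range.2 (Nat.mod_lt _ (by omega))) hh
      rw [h4] at hbad
      have h5 : ‖∑ r ∈ range q, w r * Sh h g q r N‖ ≤ (1 - c) * N := by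
        refine (norm_sum_le _ _).trans ?_
        have h6 : ∀ r ∈ range q, ‖w r * Sh h g q r N‖ ≤ (1 - c) * ((N : ℝ) / q) := by
          intro r hr
          rw [norm_mul]
          calc ‖w r‖ * ‖Sh h g q r N‖ ≤ 1 * ‖Sh h g q r N‖ :=
                mul_le_mul_of_nonneg_right (hw1 r) (norm_nonneg _)
            _ ≤ (1 - c) * ((N : ℝ) / q) := by rw [one_mul]; exact h3 r hr
        refine (sum_le_sum h6).trans (le_of_eq ?_)
        rw [sum_const, card_range, nsmul_eq_mul]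
        field_simp
      linarith
    · exact sum_nonneg fun r _ => by split_ifs <;> positivity
  refine h2.trans ?_
  have h3 : ∀ r ∈ range q, ∑ N ∈ Ioc y x, (if (1 - c) * ((N : ℝ) / q) < ‖Sh h g q r N‖ then (1 : ℝ) / N else 0) ≤
      η / (B + 1) * Real.log ((x : ℝ) / y) := fun r hr => by
    have := hω q r hq y x hy (hx' r hr) g hg
    convert this
  refine (sum_le_sum h3).trans ?_
  rw [sum_const, card_range, nsmul_eq_mul]
  have h4 : (q : ℝ) ≤ B + 1 := by exact_mod_cast (by omega : q ≤ B + 1)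
  have h5 : (q : ℝ) * (η / (B + 1) * Real.log ((x : ℝ) / y)) ≤
      (B + 1) * (η / (B + 1) * Real.log ((x : ℝ) / y)) :=
    mul_le_mul_of_nonneg_right h4 (mul_nonneg (by positivity) hlog)
  refine h5.trans (le_of_eq ?_)
  field_simp

/-- Abel summation in windows -/
lemma abel_win (ψ : ℕ → ℂ) (y x : ℕ) (hyx : y ≤ x) : ∑ n ∈ Ioc y x, ψ n / n =
    ∑ N ∈ Ioc y x, (∑ n ∈ Icc 1 N, ψ n) * (1 / ((N : ℂ) * (N + 1))) +
      (∑ n ∈ Icc 1 x, ψ n) / (x + 1) - (∑ n ∈ Icc 1 y, ψ n) / (y + 1) := by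
  have h1 := abel_logC ψ x
  have h2 := abel_logC ψ y
  have e : ∀ u : ℕ → ℂ, ∑ n ∈ Icc 1 x, u n = ∑ n ∈ Icc 1 y, u n + ∑ n ∈ Ioc y x, u n := by
    intro u
    have e1 : Icc 1 x = Icc 1 y ∪ Ioc y x := by
      ext n; simp only [mem_union, mem_Icc, mem_Ioc]; omega
    rw [e1, sum_union]
    rw [disjoint_left]
    intro n h1 h2
    rw [mem_Icc] at h1
    rw [mem_Ioc] at h2
    omega
  have h3 := e (fun n => ψ n / n)
  have h4 := e (fun N => (∑ n ∈ Icc 1 N, ψ n) * (1 / ((N : ℂ) * (N + 1))))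
  rw [h3, h2, h4] at h1
  linear_combination h1

/-- from most scales of a window to the logarithmic average over the window -/
lemma log_win (ψ : ℕ → ℂ) (hψ : ∀ n, ‖ψ n‖ ≤ 1) (c η : ℝ) (hc1 : c ≤ 1) (y x : ℕ) (hy : 1 ≤ y) (hyx : y ≤ x)
    (h : ∑ N ∈ Ioc y x, (open Classical in if (1 - c) * (N : ℝ) < ‖∑ n ∈ Icc 1 N, ψ n‖ then (1 : ℝ) / N else 0) ≤
      η * Real.log ((x : ℝ) / y)) :
    ‖∑ n ∈ Ioc y x, ψ n / n‖ ≤ (1 - c + η) * Real.log ((x : ℝ) / y) + 2 := by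
  classical
  have hS : ∀ N : ℕ, ‖∑ n ∈ Icc 1 N, ψ n‖ ≤ N := by
    intro N
    refine (norm_sum_le _ _).trans ((sum_le_sum fun k _ => hψ _).trans (le_of_eq ?_))
    simp
  have h3 : ∀ X : ℕ, ‖(∑ n ∈ Icc 1 X, ψ n) / ((X : ℂ) + 1)‖ ≤ 1 := by
    intro X
    have e : (X : ℂ) + 1 = ((X + 1 : ℕ) : ℂ) := by push_cast; rfl
    rw [e, norm_div, Complex.norm_natCast, div_le_one (by positivity)]
    have := hS X
    push_cast
    linarith
  rw [abel_win ψ y x hyx]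
  have h4 : ‖∑ N ∈ Ioc y x, (∑ n ∈ Icc 1 N, ψ n) * (1 / ((N : ℂ) * (N + 1)))‖ ≤
      (1 - c) * ∑ N ∈ Ioc y x, (1 : ℝ) / N +
        ∑ N ∈ Ioc y x, (if (1 - c) * (N : ℝ) < ‖∑ n ∈ Icc 1 N, ψ n‖ then (1 : ℝ) / N else 0) := by
    refine (norm_sum_le _ _).trans ?_
    rw [mul_sum, ← sum_add_distrib]
    apply sum_le_sum
    intro N hN
    rw [mem_Ioc] at hN
    have hN0 : (0 : ℝ) < N := by exact_mod_cast (by omega : 0 < N)
    have e1 : (0 : ℝ) < 1 / ((N : ℝ) * (N + 1)) := by positivity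
    have e0 : ‖(1 : ℂ) / ((N : ℂ) * (N + 1))‖ = 1 / ((N : ℝ) * (N + 1)) := by
      have e : (1 : ℂ) / ((N : ℂ) * (N + 1)) = ((1 / ((N : ℝ) * (N + 1)) : ℝ) : ℂ) := by push_cast; rfl
      rw [e, Complex.norm_real, Real.norm_eq_abs, abs_of_pos e1]
    rw [norm_mul, e0]
    have e2 : (N : ℝ) * (1 / ((N : ℝ) * (N + 1))) ≤ 1 / N := by
      rw [mul_one_div, div_le_div_iff₀ (by positivity) hN0]
      nlinarith
    split_ifs with hbad
    · have : ‖∑ n ∈ Icc 1 N, ψ n‖ * (1 / ((N : ℝ) * (N + 1))) ≤ N * (1 / ((N : ℝ) * (N + 1))) :=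
        mul_le_mul_of_nonneg_right (hS N) e1.le
      have h6 : 0 ≤ (1 - c) * (1 / (N : ℝ)) := mul_nonneg (by linarith) (by positivity)
      linarith
    · rw [add_zero]
      calc ‖∑ n ∈ Icc 1 N, ψ n‖ * (1 / ((N : ℝ) * (N + 1))) ≤
            ((1 - c) * N) * (1 / ((N : ℝ) * (N + 1))) :=
            mul_le_mul_of_nonneg_right (not_lt.1 hbad) e1.le
        _ = (1 - c) * (N * (1 / ((N : ℝ) * (N + 1)))) := by ring
        _ ≤ (1 - c) * (1 / N) := mul_le_mul_of_nonneg_left e2 (by linarith)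
  have h5 := harm_win y x hy hyx
  have h6 := mul_le_mul_of_nonneg_left h5 (by linarith : 0 ≤ 1 - c)
  have h7 := norm_sub_le (∑ N ∈ Ioc y x, (∑ n ∈ Icc 1 N, ψ n) * (1 / ((N : ℂ) * (N + 1))) +
      (∑ n ∈ Icc 1 x, ψ n) / (x + 1)) ((∑ n ∈ Icc 1 y, ψ n) / (y + 1))
  have h8 := norm_add_le (∑ N ∈ Ioc y x, (∑ n ∈ Icc 1 N, ψ n) * (1 / ((N : ℂ) * (N + 1))))
      ((∑ n ∈ Icc 1 x, ψ n) / ((x : ℂ) + 1))
  have h9 := h3 x
  have h10 := h3 y
  have e : (1 - c + η) * Real.log ((x : ℝ) / y) = (1 - c) * Real.log ((x : ℝ) / y) +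
      η * Real.log ((x : ℝ) / y) := by ring
  rw [e]
  linarith

end Pool.Agent.Y958.E
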