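import Pool.Agent.Y958.E.Unif
import Pool.Agent.Y958.E.ApxU
import Pool.Agent.Y958.E.Res

/-!
Library Y958.E (helper958): uniform statements in windows of scales, with twists.
-/

set_option autoImplicit false

namespace Pool.Agent.Y958.E

open Finset Filter Topology
open Pool.Agent.H376R2.MR (lam)
open Pool.Agent.Y958.U
open Pool.Agent.Y958.TC (ind)

lemma twist_sum (t ε : ℝ) (hε : 0 < ε) (a e N : ℕ) (hae : a ≤ e) :
    ∑ n ∈ Icc 1 N, ‖nit t (n + a) - nit t (n + e)‖ ≤ 2 * (ε * N) + |t| * e / ε := by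
  classical
  rcases Nat.eq_zero_or_pos N with rfl | hN
  · simp only [Nat.cast_zero]
    have : 0 ≤ |t| * e / ε := by positivity
    simpa using this
  have hN0 : (0 : ℝ) < N := by exact_mod_cast hN
  have h1 : ∀ n ∈ Icc 1 N, ‖nit t (n + a) - nit t (n + e)‖ ≤
      (if (n : ℝ) ≤ ε * N then 2 else 0) + |t| * e / (ε * N) := by
    intro n hn
    rw [mem_Icc] at hn
    have hn0 : (0 : ℝ) < n := by exact_mod_cast (by omega : 0 < n)
    have hp : 0 ≤ |t| * e / (ε * N) := by positivity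
    split_ifs with h
    · have := norm_sub_le (nit t (n + a)) (nit t (n + e))
      rw [nit_norm, nit_norm] at this
      linarith
    · rw [zero_add]
      push Not at h
      obtain ⟨k, rfl⟩ := Nat.exists_eq_add_of_le hae
      have h2 := nit_near t (n + a) k (by omega)
      have h3 : ‖nit t (n + a) - nit t (n + (a + k))‖ =
          ‖nit t (n + a + k) * (starRingEnd ℂ) (nit t (n + a)) - 1‖ := by
        have e1 : nit t (n + a) * (starRingEnd ℂ) (nit t (n + a)) = 1 := by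
          rw [Complex.mul_conj, Complex.normSq_eq_norm_sq, nit_norm]
          norm_num
        have e2 : nit t (n + a + k) * (starRingEnd ℂ) (nit t (n + a)) - 1 =
            (nit t (n + a + k) - nit t (n + a)) * (starRingEnd ℂ) (nit t (n + a)) := by
          rw [sub_mul, e1]
        rw [e2, norm_mul, RCLike.norm_conj, nit_norm, mul_one, norm_sub_rev, add_assoc]
      rw [h3]
      refine h2.trans ?_
      rw [mul_div_assoc]
      apply mul_le_mul_of_nonneg_left _ (abs_nonneg _)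
      push_cast
      apply div_le_div₀ (by positivity) _ (by positivity) _
      · have : (0 : ℝ) ≤ a := Nat.cast_nonneg _
        linarith
      · have : (0 : ℝ) ≤ a := Nat.cast_nonneg _
        linarith
  refine (sum_le_sum h1).trans ?_
  rw [sum_add_distrib, sum_const, Nat.card_Icc, nsmul_eq_mul]
  have h2 : ∑ n ∈ Icc 1 N, (if (n : ℝ) ≤ ε * N then (2 : ℝ) else 0) ≤ 2 * (ε * N) := by
    rw [← sum_filter, sum_const, nsmul_eq_mul]
    have h3 : ((Icc 1 N).filter (fun n : ℕ => (n : ℝ) ≤ ε * N)).card ≤ ⌊ε * N⌋₊ := by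
      have : (Icc 1 N).filter (fun n : ℕ => (n : ℝ) ≤ ε * N) ⊆ Icc 1 ⌊ε * N⌋₊ := by
        intro n hn
        rw [mem_filter, mem_Icc] at hn
        rw [mem_Icc]
        exact ⟨hn.1.1, Nat.le_floor hn.2⟩
      have h4 := card_le_card this
      rw [Nat.card_Icc] at h4
      omega
    have h4 : ((((Icc 1 N).filter (fun n : ℕ => (n : ℝ) ≤ ε * N)).card : ℕ) : ℝ) ≤ ε * N :=
      (Nat.cast_le.2 h3).trans (Nat.floor_le (by positivity))
    linarith
  have h5 : ((N + 1 - 1 : ℕ) : ℝ) * (|t| * e / (ε * N)) = |t| * e / ε := by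
    rw [Nat.add_sub_cancel]
    field_simp
  rw [h5]
  linarith

lemma shift_sum (F : ℕ → ℝ) (hF0 : ∀ n, 0 ≤ F n) (hF : ∀ n, F n ≤ 2) (a N : ℕ) :
    ∑ n ∈ Icc 1 N, F (n + a) ≤ ∑ n ∈ range N, F n + 2 * (a + 1) := by
  have h1 : ∑ n ∈ Icc 1 N, F (n + a) = ∑ n ∈ Ico (1 + a) (N + 1 + a), F n := by
    rw [← Finset.sum_Ico_add' (fun n => F n) 1 (N + 1) a]
    apply sum_congr _ (fun _ _ => rfl)
    ext n
    simp only [mem_Icc, mem_Ico]
    omega
  rw [h1]
  have h2 : Ico (1 + a) (N + 1 + a) ⊆ range N ∪ Ico N (N + 1 + a) := by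
    intro n hn
    simp only [mem_Ico, mem_union, mem_range] at hn ⊢
    omega
  refine (sum_le_sum_of_subset_of_nonneg h2 fun n _ _ => hF0 n).trans ?_
  rw [sum_union (by
    rw [disjoint_left]
    intro n h3 h4
    simp only [mem_Ico, mem_range] at h3 h4
    omega)]
  have h3 : ∑ n ∈ Ico N (N + 1 + a), F n ≤ 2 * (a + 1) := by
    refine (sum_le_sum fun n _ => hF n).trans (le_of_eq ?_)
    rw [sum_const, Nat.card_Ico, nsmul_eq_mul]
    have : N + 1 + a - N = a + 1 := by omega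
    rw [this]
    push_cast
    ring
  linarith

/-- **uniform gap in windows** -/
theorem unifT (d : ℕ) : ∃ c δ : ℝ, 0 < c ∧ c < 1 ∧ 0 < δ ∧ ∀ h : Fin (d + 1) → ℕ, Function.Injective h →
    ∀ (A : ℕ) (η : ℝ), 0 < η → ∃ ω₀ : ℕ, 1 ≤ ω₀ ∧ ∀ y x : ℕ, 1 ≤ y → ω₀ * y ≤ x →
      ∀ f : ℕ → ℂ, BM f → ∀ g : Fin d → ℕ → ℂ, (∀ i, BM (g i)) →
      ∀ (q : ℕ) (χ : DirichletCharacter ℂ q) (t : ℝ), 1 ≤ q → q ≤ A → |t| ≤ A * y →
      ∑ p ∈ (Ioc A x).filter Nat.Prime, (1 - (f p * (starRingEnd ℂ) ((-1) ^ ArithmeticFunction.cardFactors p *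
        χ ((p : ℕ) : ZMod q) * nit t p)).re) / (p : ℝ) ≤ δ →
      ∑ N ∈ Ioc y x, (open Classical in
        if (1 - c) * (N : ℝ) < ‖∑ n ∈ Icc 1 N, f (n + h 0) * ∏ i : Fin d, g i (n + h i.succ)‖
          then (1 : ℝ) / N else 0) ≤
        η * Real.log ((x : ℝ) / y) := by
  classical
  obtain ⟨c, hc0, hc1, hW⟩ := wts (d + 1)
  set ε : ℝ := c / 16 with hε
  have hε0 : 0 < ε := by positivity
  obtain ⟨δ, hδ0, hA⟩ := apxU ε hε0
  refine ⟨c / 2, δ, by positivity, by linarith, hδ0, fun h hinj A η hη => ?_⟩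
  set e : ℕ := 1 + ∑ i, h i with he
  have hei : ∀ i, h i < e := by
    intro i
    have := single_le_sum (f := fun i => h i) (fun _ _ => Nat.zero_le _) (mem_univ i)
    omega
  set h' : Fin (d + 1 + 1) → ℕ := Fin.cons (h 0) (Fin.cons e (fun i => h i.succ)) with hh'
  have hinj' : Function.Injective h' := by
    rw [hh', Fin.cons_injective_iff, Fin.cons_injective_iff]
    refine ⟨?_, ?_, ?_⟩
    · rintro ⟨i, hi⟩
      revert hi
      refine Fin.cases ?_ (fun i => ?_) i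
      · intro hi
        rw [Fin.cons_zero] at hi
        exact absurd hi (hei 0).ne'
      · intro hi
        rw [Fin.cons_succ] at hi
        exact absurd (hinj hi) (Fin.succ_ne_zero i)
    · rintro ⟨i, hi⟩
      exact absurd hi (hei i.succ).ne
    · intro i j hij
      exact Fin.succ_injective _ (hinj hij)
  obtain ⟨P, N₀, hP⟩ := hA A
  obtain ⟨ω₁, hω₁, hω⟩ := hW h' hinj' P (η / 2) (by positivity)
  obtain ⟨K, hK1, hK2, hK3, hK4⟩ : ∃ K : ℕ, 1 ≤ K ∧ N₀ ≤ K ∧ (A : ℝ) * e / ε ≤ ε * K ∧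
      2 * ((h 0 : ℝ) + 1) ≤ ε * K := by
    refine ⟨⌈(A : ℝ) * e / ε / ε⌉₊ + ⌈2 * ((h 0 : ℝ) + 1) / ε⌉₊ + N₀ + 1, by omega, by omega, ?_, ?_⟩
    · have h1 := Nat.le_ceil ((A : ℝ) * e / ε / ε)
      rw [div_le_iff₀ hε0] at h1
      rw [mul_comm ε]
      refine h1.trans (mul_le_mul_of_nonneg_right ?_ hε0.le)
      exact_mod_cast (by omega)
    · have h1 := Nat.le_ceil (2 * ((h 0 : ℝ) + 1) / ε)
      rw [div_le_iff₀ hε0] at h1
      rw [mul_comm ε]
      refine h1.trans (mul_le_mul_of_nonneg_right ?_ hε0.le)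
      exact_mod_cast (by omega)
  have hK0 : (0 : ℝ) < K := by exact_mod_cast hK1
  have hlK : 0 ≤ Real.log K := Real.log_nonneg (by exact_mod_cast hK1)
  set ω₂ : ℕ := ⌈Real.exp (2 * Real.log K / η)⌉₊ + 1 with hω₂
  have hω₂' : 2 * Real.log K / η ≤ Real.log (ω₂ : ℝ) := by
    rw [Real.le_log_iff_exp_le (by rw [hω₂]; positivity)]
    refine (Nat.le_ceil _).trans ?_
    rw [hω₂]
    push_cast
    linarith
  refine ⟨ω₁ + ω₂, by omega, fun y x hy hx f hf g hg q χ t hq hqA ht hsum => ?_⟩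
  have hx1 : ω₁ * y ≤ x := le_trans (Nat.mul_le_mul_right _ (by omega)) hx
  have hx2 : ω₂ * y ≤ x := le_trans (Nat.mul_le_mul_right _ (by omega)) hx
  have hlog2 : 2 * Real.log K / η ≤ Real.log ((x : ℝ) / y) :=
    hω₂'.trans (log_nonneg' hy (by omega) hx2)
  have hlog3 : Real.log K ≤ η / 2 * Real.log ((x : ℝ) / y) := by
    rw [div_le_iff₀ hη] at hlog2
    linarith
  -- the twisted function
  set k : ℕ → ℂ := fun n => ((lam n : ℤ) : ℂ) * (f n * (starRingEnd ℂ) (nit t n)) with hk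
  have hkBM : BM k := bm_lam (bm_tw hf t)
  have hsum' : ∑ p ∈ (Ioc A x).filter Nat.Prime, (1 - (k p * (starRingEnd ℂ) (χ ((p : ℕ) : ZMod q))).re) /
      (p : ℝ) ≤ δ := by
    refine le_trans (le_of_eq ?_) hsum
    apply sum_congr rfl
    intro p hp
    rw [mem_filter] at hp
    congr 3
    rw [hk]
    simp only
    rw [lam_prime _ hp.2, ArithmeticFunction.cardFactors_apply_prime hp.2, pow_one, map_mul, map_mul]
    push_cast
    simp only [map_neg, map_one]
    ring
  obtain ⟨Q, w, hQ, hQP, hw1, hwQ, hw⟩ := hP q hq hqA χ k hkBM x hsum'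
  set g' : Fin (d + 1) → ℕ → ℂ := Fin.cons (nit t) g with hg'
  have hg'BM : ∀ i, BM (g' i) := by
    intro i
    refine Fin.cases ?_ (fun i => ?_) i
    · exact ⟨fun n => (nit_norm t n).le, fun m n hm hn _ => nit_mul t hm hn⟩
    · exact hg i
  have h1 := hω y x hy hx1 g' hg'BM Q (fun n => w (n + h 0)) hQ hQP (fun n => hw1 _) (fun n => by
    show w (n + Q + h 0) = w (n + h 0)
    rw [add_right_comm, hwQ])
  have hkey : ∀ N ∈ Ioc y x, (if (1 - c / 2) * (N : ℝ) < ‖∑ n ∈ Icc 1 N, f (n + h 0) *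
      ∏ i : Fin d, g i (n + h i.succ)‖ then (1 : ℝ) / N else 0) ≤
      (if N ∈ Ioc y (K * y) then (1 : ℝ) / N else 0) +
      (if (1 - c) * (N : ℝ) < ‖∑ n ∈ Icc 1 N, w (n + h 0) * (((lam (n + h' 0) : ℤ) : ℂ) *
        ∏ i : Fin (d + 1), g' i (n + h' i.succ))‖ then (1 : ℝ) / N else 0) := by
    intro N hN
    rw [mem_Ioc] at hN
    have hN0 : (0 : ℝ) < N := by exact_mod_cast (by omega : 0 < N)
    have hn1 : (0 : ℝ) ≤ 1 / N := by positivity
    by_cases hNK : N ≤ K * y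
    · rw [if_pos (mem_Ioc.2 ⟨hN.1, hNK⟩)]
      split_ifs <;> linarith
    rw [if_neg (show N ∉ Ioc y (K * y) from fun h => hNK (mem_Ioc.1 h).2), zero_add]
    push Not at hNK
    by_cases hb : (1 - c) * (N : ℝ) < ‖∑ n ∈ Icc 1 N, w (n + h 0) * (((lam (n + h' 0) : ℤ) : ℂ) *
        ∏ i : Fin (d + 1), g' i (n + h' i.succ))‖
    · rw [if_pos hb]
      split_ifs <;> linarith
    rw [if_neg hb, if_neg]
    push Not at hb ⊢
    have hKy : (K : ℝ) * y ≤ N := by exact_mod_cast hNK.le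
    have hKN : (K : ℝ) ≤ N := by
      refine le_trans ?_ hKy
      have : (1 : ℝ) ≤ y := by exact_mod_cast hy
      nlinarith
    have hN₀N : N₀ ≤ N := by
      have : K ≤ N := by exact_mod_cast hKN
      omega
    obtain ⟨u, hu, hu2⟩ := hw N hN₀N hN.2
    -- the comparison
    have h2 : ∑ n ∈ Icc 1 N, f (n + h 0) * ∏ i : Fin d, g i (n + h i.succ) =
        u * ∑ n ∈ Icc 1 N, w (n + h 0) * (((lam (n + h' 0) : ℤ) : ℂ) *
        ∏ i : Fin (d + 1), g' i (n + h' i.succ)) +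
        ∑ n ∈ Icc 1 N, ((lam (n + h 0) : ℤ) : ℂ) * ((k (n + h 0) - u * w (n + h 0)) * nit t (n + h 0) +
          u * w (n + h 0) * (nit t (n + h 0) - nit t (n + e))) * ∏ i : Fin d, g i (n + h i.succ) := by
      rw [mul_sum, ← sum_add_distrib]
      apply sum_congr rfl
      intro n hn
      rw [mem_Icc] at hn
      have e1 : ∏ i : Fin (d + 1), g' i (n + h' i.succ) = nit t (n + e) *
          ∏ i : Fin d, g i (n + h i.succ) := by
        rw [Fin.prod_univ_succ]
        rfl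
      have e2 : f (n + h 0) = ((lam (n + h 0) : ℤ) : ℂ) * (k (n + h 0) * nit t (n + h 0)) := by
        have e3 : nit t (n + h 0) * (starRingEnd ℂ) (nit t (n + h 0)) = 1 := by
          rw [Complex.mul_conj, Complex.normSq_eq_norm_sq, nit_norm]
          norm_num
        have e4 : ((lam (n + h 0) : ℤ) : ℂ) * ((lam (n + h 0) : ℤ) : ℂ) = 1 := by
          exact lam_sq _
        rw [hk]
        simp only
        calc f (n + h 0) = (((lam (n + h 0) : ℤ) : ℂ) * ((lam (n + h 0) : ℤ) : ℂ)) * f (n + h 0) *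
              (nit t (n + h 0) * (starRingEnd ℂ) (nit t (n + h 0))) := by rw [e3, e4]; ring
          _ = _ := by ring
      have e5 : h' 0 = h 0 := rfl
      rw [e1, e2, e5]
      ring
    have h3 : ‖∑ n ∈ Icc 1 N, ((lam (n + h 0) : ℤ) : ℂ) * ((k (n + h 0) - u * w (n + h 0)) * nit t (n + h 0) +
          u * w (n + h 0) * (nit t (n + h 0) - nit t (n + e))) * ∏ i : Fin d, g i (n + h i.succ)‖ ≤
        ∑ n ∈ Icc 1 N, ‖k (n + h 0) - u * w (n + h 0)‖ +
        ∑ n ∈ Icc 1 N, ‖nit t (n + h 0) - nit t (n + e)‖ := by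
      rw [← sum_add_distrib]
      refine (norm_sum_le _ _).trans (sum_le_sum fun n _ => ?_)
      have h4 : ‖∏ i : Fin d, g i (n + h i.succ)‖ ≤ 1 := by
        rw [norm_prod]
        exact prod_le_one (fun _ _ => norm_nonneg _) fun i _ => (hg i).1 _
      rw [norm_mul, norm_mul, lam_norm, one_mul]
      refine (mul_le_of_le_one_right (norm_nonneg _) h4).trans ?_
      refine (norm_add_le _ _).trans (add_le_add ?_ ?_)
      · rw [norm_mul, nit_norm, mul_one]
      · rw [norm_mul, norm_mul, hu, one_mul]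
        exact mul_le_of_le_one_left (norm_nonneg _) (hw1 _)
    have h4 := shift_sum (fun m => ‖k m - u * w m‖) (fun _ => norm_nonneg _) (fun m => by
      show ‖k m - u * w m‖ ≤ 2
      have a1 := hkBM.1 m
      have a2 := hw1 m
      have a3 := norm_sub_le (k m) (u * w m)
      rw [norm_mul u (w m), hu, one_mul] at a3
      linarith) (h 0) N
    have h5 := twist_sum t ε hε0 (h 0) e N (hei 0).le
    have h6 : |t| * e / ε ≤ ε * N := by
      have a1 : |t| * e / ε ≤ (A : ℝ) * y * e / ε := by gcongr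
      have a2 : (A : ℝ) * y * e / ε = (A : ℝ) * e / ε * y := by ring
      have a3 : (A : ℝ) * e / ε * y ≤ ε * K * y := mul_le_mul_of_nonneg_right hK3 (Nat.cast_nonneg _)
      have a4 : ε * K * y ≤ ε * N := by
        rw [mul_assoc]
        exact mul_le_mul_of_nonneg_left hKy hε0.le
      linarith
    have h7 : 2 * ((h 0 : ℝ) + 1) ≤ ε * N := hK4.trans (mul_le_mul_of_nonneg_left hKN hε0.le)
    rw [h2]
    refine (norm_add_le _ _).trans ?_
    rw [norm_mul, hu, one_mul]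
    have h8 : ε * N * 16 = c * N := by rw [hε]; ring
    have h9 : 0 ≤ ε * N := by positivity
    have h10 : (1 - c / 2) * (N : ℝ) = (1 - c) * N + c * N / 2 := by ring
    have h11 : ∑ n ∈ range N, ‖k n - u * w n‖ ≤ ε * N := hu2
    rw [h10]
    linarith
  refine (sum_le_sum hkey).trans ?_
  rw [sum_add_distrib]
  have h2 : ∑ N ∈ Ioc y x, (if N ∈ Ioc y (K * y) then (1 : ℝ) / N else 0) ≤ Real.log K := by
    rw [← sum_filter]
    have h3 : (Ioc y x).filter (fun N => N ∈ Ioc y (K * y)) ⊆ Ioc y (K * y) := fun N hN => (mem_filter.1 hN).2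
    refine (sum_le_sum_of_subset_of_nonneg h3 fun _ _ _ => by positivity).trans ?_
    have h4 := harm_win y (K * y) hy (Nat.le_mul_of_pos_left _ hK1)
    have hy0 : (0 : ℝ) < y := by exact_mod_cast hy
    have h5 : (((K * y : ℕ) : ℝ) / y) = K := by
      push_cast
      field_simp
    rw [h5] at h4
    exact h4
  have h3 : η * Real.log ((x : ℝ) / y) = η / 2 * Real.log ((x : ℝ) / y) + η / 2 * Real.log ((x : ℝ) / y) := by
    ring
  rw [h3]
  refine add_le_add (h2.trans hlog3) ?_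
  convert h1

end Pool.Agent.Y958.E
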